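import Pool.Agent.H23.GF.Base

/-!
# Perfect spanning sets: certificates in terms of vectors of natural numbers
-/

set_option autoImplicit false

open Finset Pool.Agent.H23.GW Pool.Agent.H23.GC
open scoped Classical Nat

namespace Pool.Agent.H23.GF

noncomputable section

variable {ι : Type} [Fintype ι] {G : Type} [AddCommGroup G]

/-- absolute values -/
def ab (c : ι → ℤ) : ι → ℕ := fun i => (c i).natAbs

/-- size of the support -/
def lN (u : ι → ℕ) : ℕ := #{i | u i ≠ 0}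

/-- defect -/
def dN (u : ι → ℕ) : ℕ := ∑ i, (u i - 1)

/-- the vectors `u ≤ a` with sum `n` -/
def sv (a : ι → ℕ) (n : ℕ) : Finset (ι → ℕ) :=
  (Fintype.piFinset fun i => range (a i + 1)).filter fun u => ∑ i, u i = n

/-- the vectors with sum `n` -/
def nv (ι : Type) [Fintype ι] (n : ℕ) : Finset (ι → ℕ) :=
  (Fintype.piFinset fun _ => range (n + 1)).filter fun u => ∑ i, u i = n

theorem mem_sv {a u : ι → ℕ} {n : ℕ} : u ∈ sv a n ↔ (∀ i, u i ≤ a i) ∧ ∑ i, u i = n := by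
  unfold sv
  rw [mem_filter, Fintype.mem_piFinset]
  simp only [mem_range, Nat.lt_succ_iff]

theorem mem_nv {u : ι → ℕ} {n : ℕ} : u ∈ nv ι n ↔ ∑ i, u i = n := by
  unfold nv
  rw [mem_filter, Fintype.mem_piFinset]
  refine ⟨fun h => h.2, fun h => ⟨fun i => ?_, h⟩⟩
  rw [mem_range, Nat.lt_succ_iff, ← h]
  exact single_le_sum (f := u) (fun _ _ => Nat.zero_le _) (mem_univ i)

theorem nrm_eq (c : ι → ℤ) : nrm c = ∑ i, ab c i := rfl

theorem ell_eq (c : ι → ℤ) : ell c = lN (ab c) := by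
  unfold ell lN ab
  congr 1
  ext i
  simp

theorem dN_add_lN (u : ι → ℕ) : dN u + lN u = ∑ i, u i := by
  unfold dN lN
  rw [card_filter, ← sum_add_distrib]
  refine sum_congr rfl fun i _ => ?_
  by_cases h : u i = 0
  · simp [h]
  · rw [if_pos h]
    omega

theorem dft_eq (c : ι → ℤ) : dft c = dN (ab c) := by
  have h1 := dft_add_ell c
  have h2 := dN_add_lN (ab c)
  rw [ell_eq, nrm_eq] at h1
  omega

theorem Le_iff {c v : ι → ℤ} :
    Le c v ↔ ∀ i, (v i).natAbs = (c i).natAbs + (v i - c i).natAbs := by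
  unfold Le nrm
  rw [← sum_add_distrib]
  rw [sum_eq_sum_iff_of_le]
  · simp
  · intro i _
    have h := Int.natAbs_add_le (c i) (v i - c i)
    rw [add_sub_cancel] at h
    exact h

theorem scal {v c : ℤ} (h : v.natAbs = c.natAbs + (v - c).natAbs) :
    v.sign * c.natAbs = c ∧ c.natAbs ≤ v.natAbs ∧ (v - c).natAbs = v.natAbs - c.natAbs := by
  refine ⟨?_, by omega, by omega⟩
  rcases lt_trichotomy v 0 with h1 | h1 | h1
  · rw [Int.sign_eq_neg_one_of_neg h1]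
    omega
  · subst h1
    simp only [Int.natAbs_zero, zero_sub, Int.natAbs_neg] at h
    have : c = 0 := by omega
    simp [this]
  · rw [Int.sign_eq_one_of_pos h1]
    omega

theorem scal' {v : ℤ} {u : ℕ} (h : u ≤ v.natAbs) :
    (v.sign * u).natAbs = u ∧ (v - v.sign * u).natAbs = v.natAbs - u := by
  rcases lt_trichotomy v 0 with h1 | h1 | h1
  · rw [Int.sign_eq_neg_one_of_neg h1]
    omega
  · subst h1
    simp only [Int.natAbs_zero, Nat.le_zero] at h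
    simp [h]
  · rw [Int.sign_eq_one_of_pos h1]
    omega

/-- sums over sub-vectors -/
theorem sum_Le (v : ι → ℤ) (n : ℕ) (F : (ι → ℕ) → (ι → ℕ) → ℝ) :
    ∑ c ∈ Vn ι n with Le c v, F (ab c) (ab (v - c)) =
      ∑ u ∈ sv (ab v) n, F u (fun i => ab v i - u i) := by
  refine sum_bij' (fun c _ => ab c) (fun u _ => fun i => (v i).sign * (u i : ℤ)) ?_ ?_ ?_ ?_ ?_
  · intro c hc
    rw [mem_filter, mem_Vn, Le_iff] at hc
    rw [mem_sv]
    exact ⟨fun i => (scal (hc.2 i)).2.1, hc.1⟩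
  · intro u hu
    rw [mem_sv] at hu
    rw [mem_filter, mem_Vn, Le_iff]
    refine ⟨?_, fun i => ?_⟩
    · rw [← hu.2]
      unfold nrm
      exact sum_congr rfl fun i _ => (scal' (hu.1 i)).1
    · have h1 := scal' (hu.1 i)
      have h2 : u i ≤ (v i).natAbs := hu.1 i
      rw [h1.1, h1.2]
      omega
  · intro c hc
    rw [mem_filter, mem_Vn, Le_iff] at hc
    funext i
    exact (scal (hc.2 i)).1
  · intro u hu
    rw [mem_sv] at hu
    funext i
    exact (scal' (hu.1 i)).1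
  · intro c hc
    rw [mem_filter, mem_Vn, Le_iff] at hc
    congr 1
    funext i
    exact (scal (hc.2 i)).2.2

theorem card_fiber (u : ι → ℕ) :
    #(Fintype.piFinset fun i => ({(u i : ℤ), -(u i : ℤ)} : Finset ℤ)) = 2 ^ lN u := by
  rw [Fintype.card_piFinset]
  have h : ∀ i, #({(u i : ℤ), -(u i : ℤ)} : Finset ℤ) = if u i ≠ 0 then 2 else 1 := by
    intro i
    by_cases h : u i = 0
    · simp [h]
    · rw [if_pos h, card_pair]
      omega
  simp only [h]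
  rw [prod_ite, prod_const, prod_const_one, mul_one, lN]

/-- counting by absolute values -/
theorem sum_Vn (n : ℕ) (F : (ι → ℕ) → ℝ) :
    ∑ c ∈ Vn ι n, F (ab c) = ∑ u ∈ nv ι n, 2 ^ lN u * F u := by
  have hmap : ∀ c ∈ Vn ι n, ab c ∈ nv ι n := fun c hc => by
    rw [mem_nv]
    exact mem_Vn.1 hc
  rw [← sum_fiberwise_of_maps_to hmap]
  refine sum_congr rfl fun u hu => ?_
  have h1 : ({c ∈ Vn ι n | ab c = u} : Finset (ι → ℤ)) =
      Fintype.piFinset fun i => ({(u i : ℤ), -(u i : ℤ)} : Finset ℤ) := by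
    ext c
    rw [mem_filter, Fintype.mem_piFinset, mem_Vn]
    simp only [mem_insert, mem_singleton]
    constructor
    · rintro ⟨-, rfl⟩ i
      unfold ab
      omega
    · intro h2
      have h3 : ab c = u := by
        funext i
        have := h2 i
        unfold ab
        omega
      refine ⟨?_, h3⟩
      rw [nrm_eq, h3]
      exact mem_nv.1 hu
  have h2 : ∑ c ∈ Vn ι n with ab c = u, F (ab c) = ∑ c ∈ Vn ι n with ab c = u, F u :=
    sum_congr rfl fun c hc => by rw [(mem_filter.1 hc).2]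
  rw [h2, sum_const, h1, card_fiber, nsmul_eq_mul]
  push_cast
  rfl

/-- upper bound for the pairs `(c, z)` by a certificate -/
theorem sum_pairs {s : ℕ} {ev : (ι → ℤ) →+ G} (h : PC s ev) (A f g : (ι → ℕ) → ℝ) (κ : ℝ)
    (H2 : ∀ a : ι → ℕ, ∑ i, a i = 2 * s + 2 →
      ∑ u ∈ sv a (s + 1), A u * dN (fun i => a i - u i) ≤ ∑ p ∈ sv a (s + 2), f p)
    (H1 : ∀ a : ι → ℕ, ∑ i, a i = 2 * s + 1 →
      κ * ∑ u ∈ sv a (s + 1), A u * dN (fun i => a i - u i) ≤
        ∑ p ∈ sv a (s + 2), f p + ∑ u ∈ sv a (s + 1), g u) :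
    κ * (∑ z ∈ Lv ev (2 * s + 1), ∑ c ∈ Vn ι (s + 1) with Le c z, A (ab c) * dft (z - c)) +
      ∑ z ∈ Lv ev (2 * s + 2), ∑ c ∈ Vn ι (s + 1) with Le c z, A (ab c) * dft (z - c) ≤
    ∑ u ∈ nv ι (s + 1), 2 ^ lN u * g u + ∑ p ∈ nv ι (s + 2), 2 ^ lN p * f p := by
  have e1 : ∀ z : ι → ℤ, ∑ c ∈ Vn ι (s + 1) with Le c z, A (ab c) * dft (z - c) =
      ∑ u ∈ sv (ab z) (s + 1), A u * dN (fun i => ab z i - u i) := by
    intro z
    have := sum_Le z (s + 1) (fun u r => A u * dN r)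
    rw [← this]
    exact sum_congr rfl fun c _ => by rw [dft_eq]
  have e2 : ∀ z : ι → ℤ, ∑ p ∈ Vn ι (s + 2) with Le p z, f (ab p) =
      ∑ p ∈ sv (ab z) (s + 2), f p := fun z => sum_Le z (s + 2) (fun u _ => f u)
  have e3 : ∀ z : ι → ℤ, ∑ c ∈ Vn ι (s + 1) with Le c z, g (ab c) =
      ∑ u ∈ sv (ab z) (s + 1), g u := fun z => sum_Le z (s + 1) (fun u _ => g u)
  rw [← sum_Vn, ← sum_Vn, ← sum_R1 h, ← sum_R2 h, sum_union (disj_Lv ev (by omega)), mul_sum]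
  have k1 : ∑ z ∈ Lv ev (2 * s + 1),
      κ * ∑ c ∈ Vn ι (s + 1) with Le c z, A (ab c) * dft (z - c) ≤
      ∑ z ∈ Lv ev (2 * s + 1), ((∑ p ∈ Vn ι (s + 2) with Le p z, f (ab p)) +
        ∑ c ∈ Vn ι (s + 1) with Le c z, g (ab c)) := by
    refine sum_le_sum fun z hz => ?_
    rw [mem_Lv] at hz
    rw [e1, e2, e3]
    exact H1 (ab z) hz.1
  have k2 : ∑ z ∈ Lv ev (2 * s + 2),
      ∑ c ∈ Vn ι (s + 1) with Le c z, A (ab c) * dft (z - c) ≤
      ∑ z ∈ Lv ev (2 * s + 2), ∑ p ∈ Vn ι (s + 2) with Le p z, f (ab p) := by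
    refine sum_le_sum fun z hz => ?_
    rw [mem_Lv] at hz
    rw [e1, e2]
    exact H2 (ab z) hz.1
  rw [sum_add_distrib] at k1
  linarith

/-- (CERT) the inequality of class `i` with a weight and a certificate. -/
theorem cert {s : ℕ} {ev : (ι → ℤ) →+ G} (h : PC s ev) (hs : 1 ≤ s) {i : ℕ}
    (hm : (s + 1) ∣ (2 * Fintype.card ι + i)) (A f g : (ι → ℕ) → ℝ)
    (hA : ∀ u ∈ nv ι (s + 1), 0 ≤ A u) (hA0 : ∀ u ∈ nv ι (s + 1), dN u < i → A u = 0)
    (H2 : ∀ a : ι → ℕ, ∑ i, a i = 2 * s + 2 →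
      ∑ u ∈ sv a (s + 1), A u * dN (fun i => a i - u i) ≤ ∑ p ∈ sv a (s + 2), f p)
    (H1 : ∀ a : ι → ℕ, ∑ i, a i = 2 * s + 1 →
      ∑ u ∈ sv a (s + 1), A u * dN (fun i => a i - u i) ≤
        ∑ p ∈ sv a (s + 2), f p + ∑ u ∈ sv a (s + 1), g u) :
    0 ≤ ∑ u ∈ nv ι (s + 1), 2 ^ lN u * (A u * ((dN u : ℝ) - s - i) + g u) +
      ∑ p ∈ nv ι (s + 2), 2 ^ lN p * f p := by
  have k1 : 0 ≤ ∑ c ∈ Vn ι (s + 1), A (ab c) * ((dft c : ℝ) - s +
      (∑ z ∈ Lv ev (2 * s + 1) ∪ Lv ev (2 * s + 2) with Le c z, (dft (z - c) : ℝ)) - i) := by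
    refine sum_nonneg fun c hc => ?_
    obtain ⟨d, ⟨hd, hcd⟩, -⟩ := exists_deep h hs hc
    have hc' : ab c ∈ nv ι (s + 1) := by
      rw [mem_nv]
      exact mem_Vn.1 hc
    by_cases hi : dN (ab c) < i
    · rw [hA0 _ hc' hi, zero_mul]
    · rw [← Yc_eq h hs hc hd hcd]
      have := class_ineq h hs hm hc hd hcd (by rw [dft_eq]; omega)
      refine mul_nonneg (hA _ hc') ?_
      rw [sub_nonneg]
      exact_mod_cast this
  have k2 := sum_pairs h A f g 1 H2 (by simpa using H1)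
  have k3 : ∑ c ∈ Vn ι (s + 1), A (ab c) * ((dft c : ℝ) - s +
      (∑ z ∈ Lv ev (2 * s + 1) ∪ Lv ev (2 * s + 2) with Le c z, (dft (z - c) : ℝ)) - i) =
      ∑ u ∈ nv ι (s + 1), 2 ^ lN u * (A u * ((dN u : ℝ) - s - i)) +
      (1 * (∑ z ∈ Lv ev (2 * s + 1), ∑ c ∈ Vn ι (s + 1) with Le c z, A (ab c) * dft (z - c)) +
      ∑ z ∈ Lv ev (2 * s + 2), ∑ c ∈ Vn ι (s + 1) with Le c z, A (ab c) * dft (z - c)) := by
    rw [one_mul, ← sum_union (disj_Lv ev (by omega)), ← sum_Vn (s + 1)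
      (fun u => A u * ((dN u : ℝ) - s - i))]
    simp only [sum_filter]
    rw [sum_comm (s := Lv ev (2 * s + 1) ∪ Lv ev (2 * s + 2)), ← sum_add_distrib]
    refine sum_congr rfl fun c _ => ?_
    have : ∑ z ∈ Lv ev (2 * s + 1) ∪ Lv ev (2 * s + 2),
        (if Le c z then A (ab c) * (dft (z - c) : ℝ) else 0) =
        A (ab c) * ∑ z ∈ Lv ev (2 * s + 1) ∪ Lv ev (2 * s + 2),
        (if Le c z then (dft (z - c) : ℝ) else 0) := by
      rw [mul_sum]
      exact sum_congr rfl fun z _ => by split_ifs <;> simp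
    rw [this, dft_eq]
    ring
  rw [k3] at k1
  have k4 : ∑ u ∈ nv ι (s + 1), 2 ^ lN u * (A u * ((dN u : ℝ) - s - i) + g u) =
      ∑ u ∈ nv ι (s + 1), 2 ^ lN u * (A u * ((dN u : ℝ) - s - i)) +
      ∑ u ∈ nv ι (s + 1), 2 ^ lN u * g u := by
    rw [← sum_add_distrib]
    exact sum_congr rfl fun u _ => by ring
  rw [k4]
  linarith

end

end Pool.Agent.H23.GF
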