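import Pool.Agent.H2.GC.Base
import Pool.Agent.H2.GC.IF

/-!
# Perfect spanning sets: the base of the proof of the full conjecture

`L n` = kernel vectors of norm `n`, `Le c v` = `c` is a conformal sub-vector of `v`,
`dft c` = norm minus support. Statements (R1), (R2), (R3) and the local structure of the cosets.
-/

set_option autoImplicit false

open Finset Pool.Agent.H23.GW Pool.Agent.H23.GC
open scoped Classical Nat

namespace Pool.Agent.H23.GF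

noncomputable section

variable {ι : Type} [Fintype ι] {G : Type} [AddCommGroup G]

/-- kernel vectors of norm `n` -/
def Lv (ev : (ι → ℤ) →+ G) (n : ℕ) : Finset (ι → ℤ) := {v ∈ Vn ι n | ev v = 0}

/-- conformal sub-vector -/
def Le (c v : ι → ℤ) : Prop := nrm v = nrm c + nrm (v - c)

/-- the defect: norm minus size of the support -/
def dft (c : ι → ℤ) : ℕ := nrm c - ell c

theorem mem_Vn {n : ℕ} {c : ι → ℤ} : c ∈ Vn ι n ↔ nrm c = n := Pool.Agent.H2.GC.mem_Vn n c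

theorem mem_Lv {ev : (ι → ℤ) →+ G} {n : ℕ} {v : ι → ℤ} : v ∈ Lv ev n ↔ nrm v = n ∧ ev v = 0 := by
  unfold Lv
  rw [mem_filter, mem_Vn]

theorem nrm_neg (a : ι → ℤ) : nrm (-a) = nrm a := Pool.Agent.H2.GC.nrm_neg a

theorem nrm_sub_comm (a b : ι → ℤ) : nrm (a - b) = nrm (b - a) := by
  rw [← nrm_neg, neg_sub]

theorem ell_neg (a : ι → ℤ) : ell (-a) = ell a := by
  unfold ell
  simp

theorem dft_neg (a : ι → ℤ) : dft (-a) = dft a := by
  unfold dft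
  rw [nrm_neg, ell_neg]

theorem ell_le_nrm (c : ι → ℤ) : ell c ≤ nrm c := by
  unfold ell nrm
  rw [Finset.card_filter]
  refine Finset.sum_le_sum fun i _ => ?_
  by_cases h : c i = 0
  · simp [h]
  · rw [if_pos h]
    exact Int.natAbs_pos.2 h

theorem dft_add_ell (c : ι → ℤ) : dft c + ell c = nrm c := by
  unfold dft
  have := ell_le_nrm c
  omega

/-- every vector of norm larger than `s` is within distance `s` of exactly one short kernel
vector -/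
theorem covering {s : ℕ} {ev : (ι → ℤ) →+ G} (h : PC s ev) (p : ι → ℤ) (hp : s < nrm p) :
    ∃! v : ι → ℤ, ev v = 0 ∧ 2 * s + 1 ≤ nrm v ∧ nrm v ≤ nrm p + s ∧ nrm (p - v) ≤ s := by
  obtain ⟨d, ⟨hd, hd'⟩, hu⟩ := h (ev p)
  have hne : p ≠ d := by
    rintro rfl
    omega
  obtain ⟨h1, h2, -⟩ := (Pool.Agent.H2.GC.l ι G s ev h).2 p d hne hd'.symm
  refine ⟨p - d, ⟨by rw [map_sub, hd', sub_self], h1, by omega, by simpa using hd⟩, ?_⟩
  rintro v ⟨hv, -, -, hv'⟩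
  have := hu (p - v) ⟨hv', by rw [map_sub, hv, sub_zero]⟩
  rw [← this]
  abel

/-- (R1) -/
theorem R1 {s : ℕ} {ev : (ι → ℤ) →+ G} (h : PC s ev) {c : ι → ℤ} (hc : c ∈ Vn ι (s + 1)) :
    ∃! v, v ∈ Lv ev (2 * s + 1) ∧ Le c v := by
  rw [mem_Vn] at hc
  obtain ⟨v, ⟨h1, h2, h3, h4⟩, hu⟩ := covering h c (by omega)
  have h5 := nrm_sub_comm c v
  have h6 := Pool.Agent.H2.GC.nrm_triangle c (v - c)
  have h7 : c + (v - c) = v := by abel
  rw [h7] at h6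
  refine ⟨v, ⟨mem_Lv.2 ⟨by omega, h1⟩, ?_⟩, ?_⟩
  · unfold Le
    omega
  · rintro w ⟨hw, hw'⟩
    rw [mem_Lv] at hw
    unfold Le at hw'
    have h8 := nrm_sub_comm c w
    exact hu w ⟨hw.2, by omega, by omega, by omega⟩

/-- (R2) -/
theorem R2 {s : ℕ} {ev : (ι → ℤ) →+ G} (h : PC s ev) {p : ι → ℤ} (hp : p ∈ Vn ι (s + 2)) :
    ∃! z, z ∈ Lv ev (2 * s + 1) ∪ Lv ev (2 * s + 2) ∧ Le p z := by
  rw [mem_Vn] at hp
  obtain ⟨v, ⟨h1, h2, h3, h4⟩, hu⟩ := covering h p (by omega)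
  have h5 := nrm_sub_comm p v
  have h6 := Pool.Agent.H2.GC.nrm_triangle p (v - p)
  have h7 : p + (v - p) = v := by abel
  rw [h7] at h6
  obtain ⟨k, hk⟩ := Pool.Agent.H2.GC.parity v p
  have h9 : nrm v = 2 * s + 1 ∨ nrm v = 2 * s + 2 := by omega
  refine ⟨v, ⟨?_, ?_⟩, ?_⟩
  · rw [mem_union, mem_Lv, mem_Lv]
    tauto
  · unfold Le
    omega
  · rintro w ⟨hw, hw'⟩
    rw [mem_union, mem_Lv, mem_Lv] at hw
    unfold Le at hw'
    have h8 := nrm_sub_comm p w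
    exact hu w ⟨by tauto, by omega, by omega, by omega⟩

/-- (R3) -/
theorem R3 {s : ℕ} {ev : (ι → ℤ) →+ G} (h : PC s ev) {p : ι → ℤ} (hp : p ∈ Vn ι (s + 3)) :
    ∃! z, z ∈ Lv ev (2 * s + 1) ∪ Lv ev (2 * s + 2) ∪ Lv ev (2 * s + 3) ∧ nrm (p - z) ≤ s := by
  rw [mem_Vn] at hp
  obtain ⟨v, ⟨h1, h2, h3, h4⟩, hu⟩ := covering h p (by omega)
  have h9 : nrm v = 2 * s + 1 ∨ nrm v = 2 * s + 2 ∨ nrm v = 2 * s + 3 := by omega
  refine ⟨v, ⟨?_, h4⟩, ?_⟩
  · rw [mem_union, mem_union, mem_Lv, mem_Lv, mem_Lv]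
    tauto
  · rintro w ⟨hw, hw'⟩
    rw [mem_union, mem_union, mem_Lv, mem_Lv, mem_Lv] at hw
    exact hu w ⟨by tauto, by omega, by omega, hw'⟩

/-- summing over sub-vectors, norm `s + 1` -/
theorem sum_R1 {s : ℕ} {ev : (ι → ℤ) →+ G} (h : PC s ev) (F : (ι → ℤ) → ℝ) :
    ∑ v ∈ Lv ev (2 * s + 1), ∑ c ∈ Vn ι (s + 1) with Le c v, F c = ∑ c ∈ Vn ι (s + 1), F c := by
  simp only [sum_filter]
  rw [sum_comm]
  refine sum_congr rfl fun c hc => ?_
  obtain ⟨v, ⟨h1, h2⟩, hu⟩ := R1 h hc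
  rw [sum_eq_single v, if_pos h2]
  · intro w hw hne
    exact if_neg fun h3 => hne (hu w ⟨hw, h3⟩)
  · exact fun h3 => absurd h1 h3

/-- summing over sub-vectors, norm `s + 2` -/
theorem sum_R2 {s : ℕ} {ev : (ι → ℤ) →+ G} (h : PC s ev) (F : (ι → ℤ) → ℝ) :
    ∑ z ∈ Lv ev (2 * s + 1) ∪ Lv ev (2 * s + 2), ∑ p ∈ Vn ι (s + 2) with Le p z, F p =
      ∑ p ∈ Vn ι (s + 2), F p := by
  simp only [sum_filter]
  rw [sum_comm]
  refine sum_congr rfl fun c hc => ?_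
  obtain ⟨v, ⟨h1, h2⟩, hu⟩ := R2 h hc
  rw [sum_eq_single v, if_pos h2]
  · intro w hw hne
    exact if_neg fun h3 => hne (hu w ⟨hw, h3⟩)
  · exact fun h3 => absurd h1 h3

theorem disj_Lv (ev : (ι → ℤ) →+ G) {a b : ℕ} (h : a ≠ b) : Disjoint (Lv ev a) (Lv ev b) := by
  rw [Finset.disjoint_left]
  intro x hx hy
  rw [mem_Lv] at hx hy
  exact h (hx.1.symm.trans hy.1)

/-- `(s + 1) N - 2 m` -/
def Yd (s : ℕ) (ev : (ι → ℤ) →+ G) (d : ι → ℤ) : ℤ := (s + 1) * nb s ev d - 2 * Fintype.card ι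

/-- the coset of a vector of norm `s`: defects -/
theorem Yd_eq {s : ℕ} {ev : (ι → ℤ) →+ G} (h : PC s ev) (hs : 1 ≤ s) {d : ι → ℤ}
    (hd : d ∈ Vn ι s) :
    Yd s ev d = (∑ c ∈ Vn ι (s + 1) with ev c = ev d, (dft c : ℤ)) - ell d := by
  have h1 := (Pool.Agent.H2.GC.i ι G s ev h hs).1 d hd
  have h2 : (∑ c ∈ Vn ι (s + 1) with ev c = ev d, dft c) +
      (∑ c ∈ Vn ι (s + 1) with ev c = ev d, ell c) = (s + 1) * nb s ev d := by
    rw [← sum_add_distrib, nb, mul_comm, ← smul_eq_mul, ← sum_const]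
    refine sum_congr rfl fun c hc => ?_
    rw [mem_filter, mem_Vn] at hc
    rw [dft_add_ell, hc.1]
  unfold Yd
  push_cast [← h1, ← Nat.cast_sum]
  have h3 : ((∑ c ∈ Vn ι (s + 1) with ev c = ev d, dft c : ℕ) : ℤ) +
      (∑ c ∈ Vn ι (s + 1) with ev c = ev d, ell c : ℕ) = (s + 1) * nb s ev d := by
    exact_mod_cast h2
  have h4 : ((∑ c ∈ Vn ι (s + 1) with ev c = ev d, ell c : ℕ) : ℤ) + ell d =
      2 * Fintype.card ι := by
    exact_mod_cast h1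
  linarith

/-- the other vectors of norm `s + 1` of a coset -/
theorem sum_coset {s : ℕ} {ev : (ι → ℤ) →+ G} (h : PC s ev) {c : ι → ℤ} (hc : c ∈ Vn ι (s + 1))
    (F : (ι → ℤ) → ℝ) :
    ∑ c' ∈ Vn ι (s + 1) with ev c' = ev c, F c' =
      F c + ∑ w ∈ Lv ev (2 * s + 2) with Le c w, F (-(w - c)) := by
  have h0 : c ∈ ({c' ∈ Vn ι (s + 1) | ev c' = ev c} : Finset _) := by simp [hc]
  rw [← Finset.add_sum_erase _ _ h0]
  congr 1
  refine Finset.sum_bij' (fun c' _ => c - c') (fun w _ => c - w) ?_ ?_ ?_ ?_ ?_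
  · intro c' hc'
    rw [mem_erase, mem_filter] at hc'
    obtain ⟨h1, h2, h3⟩ := hc'
    rw [mem_Vn] at h2 hc
    obtain ⟨h4, h5, k, hk⟩ := (Pool.Agent.H2.GC.l ι G s ev h).2 c c' (Ne.symm h1) h3.symm
    rw [mem_filter, mem_Lv]
    refine ⟨⟨by omega, by rw [map_sub, h3, sub_self]⟩, ?_⟩
    unfold Le
    have h6 : c - c' - c = -c' := by abel
    rw [h6, nrm_neg]
    omega
  · intro w hw
    rw [mem_filter, mem_Lv] at hw
    obtain ⟨⟨h1, h2⟩, h3⟩ := hw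
    unfold Le at h3
    rw [mem_Vn] at hc
    rw [mem_erase, mem_filter, mem_Vn, nrm_sub_comm]
    refine ⟨?_, by omega, by rw [map_sub, h2, sub_zero]⟩
    intro h4
    have h5 : w = 0 := by
      have := sub_eq_self.1 h4
      exact this
    rw [h5, Pool.Agent.H2.GC.nrm_zero] at h1
    omega
  · intro c' _
    abel
  · intro w _
    abel
  · intro c' _
    congr 1
    abel

/-- `Y` of the coset of a vector of norm `s + 1` -/
theorem Yc_eq {s : ℕ} {ev : (ι → ℤ) →+ G} (h : PC s ev) (hs : 1 ≤ s) {c d : ι → ℤ}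
    (hc : c ∈ Vn ι (s + 1)) (hd : d ∈ Vn ι s) (hcd : ev d = ev c) :
    (Yd s ev d : ℝ) = (dft c : ℝ) - s +
      ∑ z ∈ Lv ev (2 * s + 1) ∪ Lv ev (2 * s + 2) with Le c z, (dft (z - c) : ℝ) := by
  have h1 := Yd_eq h hs hd
  have h2 := sum_coset h hc (fun c' => (dft c' : ℝ))
  rw [hcd] at h1
  have h3 : ((∑ c' ∈ Vn ι (s + 1) with ev c' = ev c, (dft c' : ℤ) : ℤ) : ℝ) =
      ∑ c' ∈ Vn ι (s + 1) with ev c' = ev c, (dft c' : ℝ) := by
    push_cast
    rfl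
  rw [h1, Int.cast_sub, h3, h2, filter_union, sum_union
    (disjoint_filter_filter (disj_Lv ev (by omega)))]
  have h4 : ∑ z ∈ Lv ev (2 * s + 1) with Le c z, (dft (z - c) : ℝ) = s - ell d := by
    obtain ⟨v, ⟨hv1, hv2⟩, hu⟩ := R1 h hc
    have h5 : ({z ∈ Lv ev (2 * s + 1) | Le c z} : Finset _) = {v} := by
      ext z
      rw [mem_filter, mem_singleton]
      exact ⟨fun hz => hu z hz, fun hz => hz ▸ ⟨hv1, hv2⟩⟩
    rw [h5, sum_singleton]
    have h6 : d = c - v := by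
      rw [mem_Lv] at hv1
      unfold Le at hv2
      rw [mem_Vn] at hc hd
      exact (h (ev c)).unique ⟨by omega, hcd⟩
        ⟨by rw [nrm_sub_comm]; omega, by rw [map_sub, hv1.2, sub_zero]⟩
    have h7 : dft (v - c) + ell d = s := by
      rw [mem_Vn] at hd
      rw [← hd, ← dft_add_ell d, h6, ← dft_neg (c - v), neg_sub]
    rw [← h7]
    push_cast
    ring
  have h5 : ∑ w ∈ Lv ev (2 * s + 2) with Le c w, (dft (-(w - c)) : ℝ) =
      ∑ w ∈ Lv ev (2 * s + 2) with Le c w, (dft (w - c) : ℝ) :=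
    sum_congr rfl fun w _ => by rw [dft_neg]
  rw [h4, h5]
  push_cast
  ring

/-- existence and uniqueness of the vector of norm `s` in the coset -/
theorem exists_deep {s : ℕ} {ev : (ι → ℤ) →+ G} (h : PC s ev) (hs : 1 ≤ s) {c : ι → ℤ}
    (hc : c ∈ Vn ι (s + 1)) : ∃! d : ι → ℤ, d ∈ Vn ι s ∧ ev d = ev c :=
  (Pool.Agent.H2.GC.i ι G s ev h hs).2 c hc

/-- (C) the basic inequality of class `i`, `i + 2 m ≡ 0` modulo `s + 1`. -/
theorem class_ineq {s : ℕ} {ev : (ι → ℤ) →+ G} (h : PC s ev) (hs : 1 ≤ s) {i : ℕ}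
    (hm : (s + 1) ∣ (2 * Fintype.card ι + i)) {c d : ι → ℤ}
    (hc : c ∈ Vn ι (s + 1)) (hd : d ∈ Vn ι s) (hcd : ev d = ev c) (hci : i ≤ dft c) :
    (i : ℤ) ≤ Yd s ev d := by
  have h1 := Yd_eq h hs hd
  have h2 : (dft c : ℤ) ≤ ∑ c ∈ Vn ι (s + 1) with ev c = ev d, (dft c : ℤ) :=
    single_le_sum (f := fun c => (dft c : ℤ)) (fun _ _ => by positivity)
      (by rw [mem_filter]; exact ⟨hc, hcd.symm⟩)
  have h3 : (ell d : ℤ) ≤ s := by
    have := ell_le_nrm d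
    rw [mem_Vn.1 hd] at this
    exact_mod_cast this
  have h4 : ((s : ℤ) + 1) ∣ (Yd s ev d - i) := by
    have h5 : ((s : ℤ) + 1) ∣ (2 * Fintype.card ι + i : ℤ) := by exact_mod_cast hm
    have h6 : Yd s ev d - i = (s + 1) * nb s ev d - (2 * Fintype.card ι + i) := by
      unfold Yd
      ring
    rw [h6]
    exact dvd_sub (dvd_mul_right _ _) h5
  obtain ⟨k, hk⟩ := h4
  by_contra h7
  push Not at h7
  have h8 : k < 0 := by
    by_contra h9
    push Not at h9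
    have : 0 ≤ ((s : ℤ) + 1) * k := by positivity
    linarith
  have h9 : ((s : ℤ) + 1) * k ≤ -(s + 1) := by nlinarith
  have h10 : (i : ℤ) ≤ dft c := by exact_mod_cast hci
  linarith

end

end Pool.Agent.H23.GF
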