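import Pool.Agent.H23.GF.Rank

/-!
# The certificate for the second moment
-/

set_option autoImplicit false

open Finset
open scoped Classical

namespace Pool.Agent.H23.GF

noncomputable section

variable {ι : Type} [Fintype ι]

/-- sub-vectors between bounds -/
theorem card_between (a b b' : ι → ℕ) {n k : ℕ} (h : ∀ i, b i + b' i ≤ a i)
    (hn : ∑ i, b i + k = n) :
    #{u ∈ sv a n | (∀ i, b i ≤ u i) ∧ ∀ i, b' i ≤ a i - u i} =
      #(sv (fun i => a i - (b i + b' i)) k) := by
  refine card_bij' (fun u _ => fun i => u i - b i) (fun v _ => fun i => v i + b i) ?_ ?_ ?_ ?_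
  · intro u hu
    rw [mem_filter, mem_sv] at hu
    obtain ⟨⟨h1, h2⟩, h3, h4⟩ := hu
    rw [mem_sv]
    refine ⟨fun i => ?_, ?_⟩
    · have := h1 i
      have := h3 i
      have := h4 i
      have := h i
      show u i - b i ≤ a i - (b i + b' i)
      omega
    · have h5 : ∑ i, (u i - b i) + ∑ i, b i = ∑ i, u i := by
        rw [← sum_add_distrib]
        exact sum_congr rfl fun i _ => Nat.sub_add_cancel (h3 i)
      show ∑ i, (u i - b i) = k
      omega
  · intro v hv
    rw [mem_sv] at hv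
    rw [mem_filter, mem_sv]
    refine ⟨⟨fun i => ?_, ?_⟩, fun i => ?_, fun i => ?_⟩
    · have := hv.1 i
      have := h i
      show v i + b i ≤ a i
      omega
    · show ∑ i, (v i + b i) = n
      rw [sum_add_distrib, hv.2]
      omega
    · exact Nat.le_add_left _ _
    · have := hv.1 i
      have := h i
      show b' i ≤ a i - (v i + b i)
      omega
  · intro u hu
    rw [mem_filter] at hu
    funext i
    exact Nat.sub_add_cancel (hu.2.1 i)
  · intro v _
    funext i
    exact Nat.add_sub_cancel _ _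

theorem card_between_zero (a b b' : ι → ℕ) (n : ℕ) (h : ¬ ∀ i, b i + b' i ≤ a i) :
    #{u ∈ sv a n | (∀ i, b i ≤ u i) ∧ ∀ i, b' i ≤ a i - u i} = 0 := by
  rw [card_eq_zero, filter_eq_empty_iff]
  rintro u hu ⟨h3, h4⟩
  rw [mem_sv] at hu
  refine h fun i => ?_
  have := hu.1 i
  have := h3 i
  have := h4 i
  omega

theorem card_above (a b : ι → ℕ) {n k : ℕ} (h : ∀ i, b i ≤ a i) (hn : ∑ i, b i + k = n) :
    #{u ∈ sv a n | ∀ i, b i ≤ u i} = #(sv (fun i => a i - b i) k) := by
  have := card_between a b 0 (fun i => by simpa using h i) hn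
  simpa using this

/-- the level decomposition of the defect -/
theorem dN_levels {s : ℕ} (u : ι → ℕ) (hu : ∀ i, u i ≤ s + 1) :
    (dN u : ℝ) = ∑ j, ∑ i ∈ range s, if s + 1 - i ≤ u j then (1 : ℝ) else 0 := by
  unfold dN
  push_cast
  refine sum_congr rfl fun j _ => ?_
  rw [← sum_filter, sum_const, nsmul_eq_mul, mul_one]
  congr 1
  have h1 : ({i ∈ range s | s + 1 - i ≤ u j} : Finset ℕ) = Ico (s + 1 - u j) s := by
    ext i
    rw [mem_filter, mem_range, mem_Ico]
    have := hu j
    omega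
  rw [h1, Nat.card_Ico]
  have := hu j
  omega

/-- lower bound vectors -/
def sg (j : ι) (r : ℕ) : ι → ℕ := Pi.single j r

omit [Fintype ι] in
theorem sg_le {j : ι} {r : ℕ} {u : ι → ℕ} : (∀ i, sg j r i ≤ u i) ↔ r ≤ u j := by
  unfold sg
  constructor
  · intro h
    simpa using h j
  · intro h i
    by_cases hi : i = j
    · subst hi
      simpa using h
    · rw [Pi.single_eq_of_ne hi]
      exact Nat.zero_le _

theorem sum_sg (j : ι) (r : ℕ) : ∑ i, sg j r i = r := by
  unfold sg
  rw [Finset.sum_pi_single']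
  simp

/-- the pairs of levels -/
theorem levels {s n : ℕ} (a : ι → ℕ) (hn : n ≤ s + 1) (ha : ∑ i, a i ≤ n + (s + 1)) :
    ∑ u ∈ sv a n, (dN u : ℝ) * dN (fun i => a i - u i) =
      ∑ j, ∑ j', ∑ i ∈ range s, ∑ k ∈ range s,
        (#{u ∈ sv a n | (∀ t, sg j (s + 1 - i) t ≤ u t) ∧
          ∀ t, sg j' (s + 1 - k) t ≤ a t - u t} : ℝ) := by
  have h1 : ∀ u ∈ sv a n, (dN u : ℝ) * dN (fun i => a i - u i) =
      ∑ j, ∑ j', ∑ i ∈ range s, ∑ k ∈ range s,
        (if (∀ t, sg j (s + 1 - i) t ≤ u t) ∧ ∀ t, sg j' (s + 1 - k) t ≤ a t - u t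
          then (1 : ℝ) else 0) := by
    intro u hu
    rw [mem_sv] at hu
    have h2 : ∀ i, u i ≤ s + 1 := fun i => by
      have := single_le_sum (f := u) (fun _ _ => Nat.zero_le _) (mem_univ i)
      omega
    have h3 : ∑ i, (a i - u i) + ∑ i, u i = ∑ i, a i := by
      rw [← sum_add_distrib]
      exact sum_congr rfl fun i _ => Nat.sub_add_cancel (hu.1 i)
    have h4 : ∀ i, a i - u i ≤ s + 1 := fun i => by
      have := single_le_sum (f := fun i => a i - u i) (fun _ _ => Nat.zero_le _) (mem_univ i)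
      have h5 : a i - u i ≤ ∑ i, (a i - u i) := this
      omega
    rw [dN_levels u h2, dN_levels _ h4, sum_mul_sum]
    refine sum_congr rfl fun j _ => sum_congr rfl fun j' _ => ?_
    rw [sum_mul_sum]
    refine sum_congr rfl fun i _ => sum_congr rfl fun k _ => ?_
    have e1 : (∀ t, sg j (s + 1 - i) t ≤ u t) ↔ s + 1 - i ≤ u j := sg_le
    have e2 : (∀ t, sg j' (s + 1 - k) t ≤ a t - u t) ↔ s + 1 - k ≤ a j' - u j' :=
      sg_le (u := fun t => a t - u t)
    simp only [e1, e2]
    by_cases h6 : s + 1 - i ≤ u j <;> by_cases h7 : s + 1 - k ≤ a j' - u j' <;> simp [h6, h7]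
  rw [sum_congr rfl h1, sum_comm]
  refine sum_congr rfl fun j _ => ?_
  rw [sum_comm]
  refine sum_congr rfl fun j' _ => ?_
  rw [sum_comm]
  refine sum_congr rfl fun i _ => ?_
  rw [sum_comm]
  refine sum_congr rfl fun k _ => ?_
  rw [← sum_filter, sum_const, nsmul_eq_mul, mul_one]

/-- the two entries of the bound vector of the certificate -/
def rr (s i k : ℕ) : ℕ := if s ≤ i + k then s + 1 - i else min (s + 1 - i) s

def qq (s i k : ℕ) : ℕ := if s ≤ i + k then s + 1 - k else s + 2 - min (s + 1 - i) s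

/-- the coefficient of the certificate -/
def cc (s i k : ℕ) : ℝ :=
  if s ≤ i + k then ((i + k).choose i : ℝ) / (i + k).choose s else (i + k).choose i

/-- the certificate -/
def FF (s : ℕ) (p : ι → ℕ) : ℝ :=
  ∑ j, ∑ j', ∑ i ∈ range s, ∑ k ∈ range s,
    cc s i k * if ∀ t, sg j (rr s i k) t + sg j' (qq s i k) t ≤ p t then 1 else 0

theorem cc_nonneg (s i k : ℕ) : 0 ≤ cc s i k := by
  unfold cc
  split_ifs <;> positivity

theorem sum_FF {s n : ℕ} (a : ι → ℕ) :
    ∑ p ∈ sv a n, FF s p = ∑ j, ∑ j', ∑ i ∈ range s, ∑ k ∈ range s,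
      cc s i k * #{p ∈ sv a n | ∀ t, sg j (rr s i k) t + sg j' (qq s i k) t ≤ p t} := by
  unfold FF
  rw [sum_comm]
  refine sum_congr rfl fun j _ => ?_
  rw [sum_comm]
  refine sum_congr rfl fun j' _ => ?_
  rw [sum_comm]
  refine sum_congr rfl fun i _ => ?_
  rw [sum_comm]
  refine sum_congr rfl fun k _ => ?_
  rw [← mul_sum, ← sum_filter, sum_const, nsmul_eq_mul, mul_one]

theorem bound_extra {s i k : ℕ} (hi : i < s) (hk : k < s) (hik : i + k < s) {j j' : ι}
    {a : ι → ℕ} (h : ∀ t, sg j (s + 1 - i) t + sg j' (s + 1 - k) t ≤ a t) :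
    1 ≤ #{p ∈ sv a (s + 2) | ∀ t, sg j (rr s i k) t + sg j' (qq s i k) t ≤ p t} := by
  rw [Nat.one_le_iff_ne_zero, ← Nat.pos_iff_ne_zero, card_pos]
  refine ⟨fun t => sg j (rr s i k) t + sg j' (qq s i k) t, ?_⟩
  have hr : rr s i k = min (s + 1 - i) s := by
    unfold rr
    rw [if_neg (by omega)]
  have hq : qq s i k = s + 2 - min (s + 1 - i) s := by
    unfold qq
    rw [if_neg (by omega)]
  rw [mem_filter, mem_sv]
  refine ⟨⟨fun t => ?_, ?_⟩, fun t => le_rfl⟩
  · have h1 := h t
    rw [hr, hq]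
    unfold sg at h1 ⊢
    by_cases hj : t = j
    · subst hj
      by_cases hj' : t = j'
      · subst hj'
        simp only [Pi.single_eq_same] at h1 ⊢
        omega
      · rw [Pi.single_eq_same, Pi.single_eq_of_ne hj'] at h1 ⊢
        omega
    · by_cases hj' : t = j'
      · subst hj'
        rw [Pi.single_eq_same, Pi.single_eq_of_ne hj] at h1 ⊢
        omega
      · rw [Pi.single_eq_of_ne hj, Pi.single_eq_of_ne hj'] at h1 ⊢
        omega
  · rw [sum_add_distrib, sum_sg, sum_sg, hr, hq]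
    omega

theorem term_bound {s i k : ℕ} (hi : i < s) (hk : k < s) {j j' : ι} {a : ι → ℕ}
    (ha : ∑ t, a t = 2 * s + 2) :
    (#{u ∈ sv a (s + 1) | (∀ t, sg j (s + 1 - i) t ≤ u t) ∧
          ∀ t, sg j' (s + 1 - k) t ≤ a t - u t} : ℝ) ≤
      cc s i k * #{p ∈ sv a (s + 2) | ∀ t, sg j (rr s i k) t + sg j' (qq s i k) t ≤ p t} := by
  by_cases h : ∀ t, sg j (s + 1 - i) t + sg j' (s + 1 - k) t ≤ a t
  · rw [card_between a _ _ h (n := s + 1) (k := i) (by rw [sum_sg]; omega)]
    have hs : ∑ t, (a t - (sg j (s + 1 - i) t + sg j' (s + 1 - k) t)) = i + k := by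
      have h1 : ∑ t, (a t - (sg j (s + 1 - i) t + sg j' (s + 1 - k) t)) +
          ∑ t, (sg j (s + 1 - i) t + sg j' (s + 1 - k) t) = ∑ t, a t := by
        rw [← sum_add_distrib]
        exact sum_congr rfl fun t _ => Nat.sub_add_cancel (h t)
      rw [sum_add_distrib, sum_sg, sum_sg] at h1
      omega
    by_cases hik : s ≤ i + k
    · have h2 := rk_choose _ hs (s := s) hi.le hk.le hik
      have hr : rr s i k = s + 1 - i := by
        unfold rr
        rw [if_pos hik]
      have hq : qq s i k = s + 1 - k := by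
        unfold qq
        rw [if_pos hik]
      rw [hr, hq, card_above a (fun t => sg j (s + 1 - i) t + sg j' (s + 1 - k) t) h
        (n := s + 2) (k := i + k - s) (by rw [sum_add_distrib, sum_sg, sum_sg]; omega)]
      unfold cc
      rw [if_pos hik, div_mul_eq_mul_div, le_div_iff₀ (by
        exact_mod_cast Nat.choose_pos hik)]
      exact_mod_cast h2
    · have h2 := rk_crude _ hs
      have h3 := bound_extra hi hk (by omega) h
      unfold cc
      rw [if_neg hik]
      have h4 : (1 : ℝ) ≤ #{p ∈ sv a (s + 2) |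
          ∀ t, sg j (rr s i k) t + sg j' (qq s i k) t ≤ p t} := by exact_mod_cast h3
      have h5 : (#(sv (fun t => a t - (sg j (s + 1 - i) t + sg j' (s + 1 - k) t)) i) : ℝ) ≤
          ((i + k).choose i : ℝ) := by exact_mod_cast h2
      exact h5.trans (le_mul_of_one_le_right (by positivity) h4)
  · rw [card_between_zero a _ _ _ h]
    have := cc_nonneg s i k
    push_cast
    positivity

/-- (H2) -/
theorem FF_H2 {s : ℕ} (a : ι → ℕ) (ha : ∑ i, a i = 2 * s + 2) :
    ∑ u ∈ sv a (s + 1), (dN u : ℝ) * dN (fun i => a i - u i) ≤ ∑ p ∈ sv a (s + 2), FF s p := by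
  rw [levels a le_rfl (by omega), sum_FF]
  refine sum_le_sum fun j _ => sum_le_sum fun j' _ => sum_le_sum fun i hi => sum_le_sum
    fun k hk => ?_
  rw [mem_range] at hi hk
  exact term_bound hi hk ha

theorem term_bound1 {s i k : ℕ} (hi : i < s) (hk : k < s) {j j' : ι} {a : ι → ℕ}
    (ha : ∑ t, a t = 2 * s + 1) :
    (#{u ∈ sv a (s + 1) | (∀ t, sg j (s + 1 - i) t ≤ u t) ∧
          ∀ t, sg j' (s + 1 - k) t ≤ a t - u t} : ℝ) +
      #{u ∈ sv a (s + 1) | (∀ t, sg j' (s + 1 - k) t ≤ u t) ∧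
          ∀ t, sg j (s + 1 - i) t ≤ a t - u t} ≤
      cc s i k * #{p ∈ sv a (s + 2) | ∀ t, sg j (rr s i k) t + sg j' (qq s i k) t ≤ p t} +
      cc s i k * #{p ∈ sv a (s + 1) | ∀ t, sg j (rr s i k) t + sg j' (qq s i k) t ≤ p t} := by
  have hcc := cc_nonneg s i k
  by_cases h : ∀ t, sg j (s + 1 - i) t + sg j' (s + 1 - k) t ≤ a t
  · have h' : ∀ t, sg j' (s + 1 - k) t + sg j (s + 1 - i) t ≤ a t := fun t => by
      rw [add_comm]
      exact h t
    rw [card_between a _ _ h (n := s + 1) (k := i) (by rw [sum_sg]; omega),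
      card_between a _ _ h' (n := s + 1) (k := k) (by rw [sum_sg]; omega)]
    have hs : ∑ t, (a t - (sg j (s + 1 - i) t + sg j' (s + 1 - k) t)) + 1 = i + k := by
      have h1 : ∑ t, (a t - (sg j (s + 1 - i) t + sg j' (s + 1 - k) t)) +
          ∑ t, (sg j (s + 1 - i) t + sg j' (s + 1 - k) t) = ∑ t, a t := by
        rw [← sum_add_distrib]
        exact sum_congr rfl fun t _ => Nat.sub_add_cancel (h t)
      rw [sum_add_distrib, sum_sg, sum_sg] at h1
      omega
    have e0 : (fun t => a t - (sg j' (s + 1 - k) t + sg j (s + 1 - i) t)) =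
        fun t => a t - (sg j (s + 1 - i) t + sg j' (s + 1 - k) t) := by
      funext t
      rw [add_comm (sg j' (s + 1 - k) t)]
    rw [e0]
    set y : ι → ℕ := fun t => a t - (sg j (s + 1 - i) t + sg j' (s + 1 - k) t) with hy
    have hsy : ∑ t, y t + 1 = i + k := hs
    have e1 : #(sv y i) + #(sv y k) = rk1 y i := by
      unfold rk1
      congr 1
      split_ifs with h3
      · exact rk_large y (by omega)
      · exact rk_symm y (by omega)
    have e2 : (#(sv y i) : ℝ) + #(sv y k) = rk1 y i := by exact_mod_cast e1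
    rw [e2]
    by_cases hik : s ≤ i + k
    · have h2 := rk1_choose y hsy (s := s) hi.le hk.le hik
      have hr : rr s i k = s + 1 - i := by
        unfold rr
        rw [if_pos hik]
      have hq : qq s i k = s + 1 - k := by
        unfold qq
        rw [if_pos hik]
      have e3 : (#{p ∈ sv a (s + 2) | ∀ t, sg j (rr s i k) t + sg j' (qq s i k) t ≤ p t} : ℝ) +
          #{p ∈ sv a (s + 1) | ∀ t, sg j (rr s i k) t + sg j' (qq s i k) t ≤ p t} =
          rk1 y (i + k - s) := by
        rw [hr, hq, card_above a (fun t => sg j (s + 1 - i) t + sg j' (s + 1 - k) t) h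
          (n := s + 2) (k := i + k - s) (by rw [sum_add_distrib, sum_sg, sum_sg]; omega)]
        unfold rk1
        push_cast
        congr 1
        split_ifs with h3
        · rw [card_eq_zero.2]
          · simp
          rw [filter_eq_empty_iff]
          intro p hp hp'
          rw [mem_sv] at hp
          have h4 := sum_le_sum fun t (_ : t ∈ (univ : Finset ι)) => hp' t
          rw [sum_add_distrib, sum_sg, sum_sg, hp.2] at h4
          omega
        · rw [card_above a (fun t => sg j (s + 1 - i) t + sg j' (s + 1 - k) t) h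
            (n := s + 1) (k := i + k - s - 1) (by rw [sum_add_distrib, sum_sg, sum_sg]; omega)]
      rw [← mul_add, e3]
      unfold cc
      rw [if_pos hik, div_mul_eq_mul_div, le_div_iff₀ (by
        exact_mod_cast Nat.choose_pos hik)]
      exact_mod_cast h2
    · have h2 := rk1_crude y hsy
      have h3 := bound_extra hi hk (by omega) h
      have h4 : (1 : ℝ) ≤ #{p ∈ sv a (s + 2) |
          ∀ t, sg j (rr s i k) t + sg j' (qq s i k) t ≤ p t} := by exact_mod_cast h3
      have h5 : (rk1 y i : ℝ) ≤ cc s i k := by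
        unfold cc
        rw [if_neg hik]
        exact_mod_cast h2
      have h6 := h5.trans (le_mul_of_one_le_right hcc h4)
      have h7 : 0 ≤ cc s i k * #{p ∈ sv a (s + 1) |
          ∀ t, sg j (rr s i k) t + sg j' (qq s i k) t ≤ p t} := by positivity
      linarith
  · have h' : ¬ ∀ t, sg j' (s + 1 - k) t + sg j (s + 1 - i) t ≤ a t := fun h'' => h fun t => by
      rw [add_comm]
      exact h'' t
    rw [card_between_zero a _ _ _ h, card_between_zero a _ _ _ h', Nat.cast_zero, add_zero]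
    positivity

/-- (H1) -/
theorem FF_H1 {s : ℕ} (a : ι → ℕ) (ha : ∑ i, a i = 2 * s + 1) :
    2 * ∑ u ∈ sv a (s + 1), (dN u : ℝ) * dN (fun i => a i - u i) ≤
      ∑ p ∈ sv a (s + 2), FF s p + ∑ p ∈ sv a (s + 1), FF s p := by
  rw [levels a le_rfl (by omega), sum_FF, sum_FF, two_mul]
  have h1 : ∑ j, ∑ j', ∑ i ∈ range s, ∑ k ∈ range s,
      (#{u ∈ sv a (s + 1) | (∀ t, sg j (s + 1 - i) t ≤ u t) ∧
        ∀ t, sg j' (s + 1 - k) t ≤ a t - u t} : ℝ) =
      ∑ j, ∑ j', ∑ i ∈ range s, ∑ k ∈ range s,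
      (#{u ∈ sv a (s + 1) | (∀ t, sg j' (s + 1 - k) t ≤ u t) ∧
        ∀ t, sg j (s + 1 - i) t ≤ a t - u t} : ℝ) := by
    rw [sum_comm]
    refine sum_congr rfl fun j _ => sum_congr rfl fun j' _ => ?_
    rw [sum_comm]
  nth_rewrite 2 [h1]
  simp only [← sum_add_distrib]
  refine sum_le_sum fun j _ => sum_le_sum fun j' _ => sum_le_sum fun i hi => sum_le_sum
    fun k hk => ?_
  rw [mem_range] at hi hk
  exact term_bound1 hi hk ha

end

end Pool.Agent.H23.GF
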