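import Pool.Agent.H23.GF.Cert

/-!
# Sums over the vectors of a given norm
-/

set_option autoImplicit false

open Finset Pool.Agent.H23.GW Pool.Agent.H23.GC
open scoped Classical

namespace Pool.Agent.H23.GF

noncomputable section

variable {ι : Type} [Fintype ι]

/-- number of vectors of norm `n` -/
def Kn (ι : Type) [Fintype ι] (n : ℕ) : ℝ := ∑ u ∈ nv ι n, 2 ^ lN u

/-- first moment of the size of the support -/
def Pn (ι : Type) [Fintype ι] (n : ℕ) : ℝ := ∑ u ∈ nv ι n, 2 ^ lN u * lN u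

/-- second factorial moment of the size of the support -/
def Qn (ι : Type) [Fintype ι] (n : ℕ) : ℝ := ∑ u ∈ nv ι n, 2 ^ lN u * (lN u * ((lN u : ℝ) - 1))

theorem wt_eq (u : ι → ℕ) : (2 : ℝ) ^ lN u = ∏ i, if u i = 0 then (1 : ℝ) else 2 := by
  unfold lN
  rw [prod_ite, prod_const_one, one_mul, prod_const]

theorem wt_update (u : ι → ℕ) (j : ι) (x : ℕ) :
    (2 : ℝ) ^ lN (Function.update u j x) =
      (if x = 0 then (1 : ℝ) else 2) * ∏ i ∈ univ \ {j}, if u i = 0 then (1 : ℝ) else 2 := by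
  rw [wt_eq, ← prod_sdiff (subset_univ {j}), mul_comm, prod_singleton, Function.update_self]
  congr 1
  refine prod_congr rfl fun i hi => ?_
  rw [mem_sdiff, mem_singleton] at hi
  rw [Function.update_of_ne hi.2]

theorem wt_split (u : ι → ℕ) (j : ι) :
    (2 : ℝ) ^ lN u =
      (if u j = 0 then (1 : ℝ) else 2) * ∏ i ∈ univ \ {j}, if u i = 0 then (1 : ℝ) else 2 := by
  have := wt_update u j (u j)
  rwa [Function.update_eq_self] at this

theorem sum_update (u : ι → ℕ) (j : ι) (x : ℕ) :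
    ∑ i, Function.update u j x i + u j = ∑ i, u i + x := by
  rw [sum_update_of_mem (mem_univ j)]
  have : ∑ i, u i = u j + ∑ i ∈ univ \ {j}, u i := by
    rw [← sum_sdiff (subset_univ {j}), sum_singleton, add_comm]
  omega

/-- moving a coordinate down -/
theorem sum_shift (j : ι) (t n : ℕ) (φ : (ι → ℕ) → ℝ)
    (hφ : ∀ u x, φ (Function.update u j x) = φ u) :
    ∑ p ∈ nv ι (n + t), 2 ^ lN p * ((if t + 1 ≤ p j then 1 else 0) * φ p) =
      ∑ p ∈ nv ι n, 2 ^ lN p * ((if 1 ≤ p j then 1 else 0) * φ p) := by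
  have e : ∀ (m r : ℕ), ∑ p ∈ nv ι m, 2 ^ lN p * ((if r ≤ p j then 1 else 0) * φ p) =
      ∑ p ∈ nv ι m with r ≤ p j, 2 ^ lN p * φ p := by
    intro m r
    rw [sum_filter]
    refine sum_congr rfl fun p _ => ?_
    split_ifs <;> simp
  rw [e, e]
  refine sum_bij' (fun p _ => Function.update p j (p j - t))
    (fun p _ => Function.update p j (p j + t)) ?_ ?_ ?_ ?_ ?_
  · intro p hp
    rw [mem_filter, mem_nv] at hp ⊢
    have := sum_update p j (p j - t)
    rw [Function.update_self]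
    exact ⟨by omega, by omega⟩
  · intro p hp
    rw [mem_filter, mem_nv] at hp ⊢
    have := sum_update p j (p j + t)
    rw [Function.update_self]
    exact ⟨by omega, by omega⟩
  · intro p hp
    rw [mem_filter] at hp
    rw [Function.update_idem, Function.update_self, Nat.sub_add_cancel (by omega),
      Function.update_eq_self]
  · intro p hp
    rw [Function.update_idem, Function.update_self, Nat.add_sub_cancel, Function.update_eq_self]
  · intro p hp
    rw [mem_filter] at hp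
    rw [hφ, wt_update, wt_split p j, if_neg (by omega), if_neg (by omega)]

/-- adding a unit -/
theorem sum_unit (j : ι) (n : ℕ) (φ : (ι → ℕ) → ℝ)
    (hφ : ∀ u x, φ (Function.update u j x) = φ u) :
    ∑ p ∈ nv ι (n + 1), 2 ^ lN p * ((if 1 ≤ p j then 1 else 0) * φ p) +
      ∑ p ∈ nv ι n, 2 ^ lN p * ((if 1 ≤ p j then 1 else 0) * φ p) =
      2 * ∑ p ∈ nv ι n, 2 ^ lN p * φ p := by
  have e : ∀ (m r : ℕ), ∑ p ∈ nv ι m, 2 ^ lN p * ((if r ≤ p j then 1 else 0) * φ p) =
      ∑ p ∈ nv ι m with r ≤ p j, 2 ^ lN p * φ p := by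
    intro m r
    rw [sum_filter]
    refine sum_congr rfl fun p _ => ?_
    split_ifs <;> simp
  have e1 : ∑ p ∈ nv ι (n + 1), 2 ^ lN p * ((if 1 ≤ p j then 1 else 0) * φ p) =
      ∑ p ∈ nv ι n, (if p j = 0 then 2 else 1) * (2 ^ lN p * φ p) := by
    rw [e]
    refine sum_bij' (fun p _ => Function.update p j (p j - 1))
      (fun p _ => Function.update p j (p j + 1)) ?_ ?_ ?_ ?_ ?_
    · intro p hp
      rw [mem_filter, mem_nv] at hp
      rw [mem_nv]
      have := sum_update p j (p j - 1)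
      omega
    · intro p hp
      rw [mem_nv] at hp
      rw [mem_filter, mem_nv]
      have := sum_update p j (p j + 1)
      rw [Function.update_self]
      exact ⟨by omega, by omega⟩
    · intro p hp
      rw [mem_filter] at hp
      rw [Function.update_idem, Function.update_self, Nat.sub_add_cancel (by omega),
        Function.update_eq_self]
    · intro p hp
      rw [Function.update_idem, Function.update_self, Nat.add_sub_cancel, Function.update_eq_self]
    · intro p hp
      rw [mem_filter] at hp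
      rw [hφ, wt_update, wt_split p j, if_neg (by omega), Function.update_self]
      split_ifs <;> ring
  rw [e1, ← sum_add_distrib, mul_sum]
  refine sum_congr rfl fun p _ => ?_
  by_cases h : p j = 0
  · rw [if_pos h, if_neg (by omega)]
    ring
  · rw [if_neg h, if_pos (by omega)]
    ring

theorem lN_eq (u : ι → ℕ) : (lN u : ℝ) = ∑ j, if 1 ≤ u j then (1 : ℝ) else 0 := by
  unfold lN
  rw [card_filter]
  push_cast
  refine sum_congr rfl fun j _ => ?_
  by_cases h : u j = 0
  · rw [if_neg (by omega), if_neg (by omega)]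
  · rw [if_pos h, if_pos (by omega)]

theorem Pn_eq (n : ℕ) :
    Pn ι n = ∑ j, ∑ p ∈ nv ι n, 2 ^ lN p * ((if 1 ≤ p j then 1 else 0) * 1) := by
  unfold Pn
  rw [sum_comm]
  refine sum_congr rfl fun p _ => ?_
  rw [lN_eq, mul_sum]
  exact sum_congr rfl fun j _ => by rw [mul_one]

theorem Qn_eq (n : ℕ) :
    Qn ι n = ∑ j, ∑ j' ∈ univ.erase j, ∑ p ∈ nv ι n,
      2 ^ lN p * ((if 1 ≤ p j then 1 else 0) * (if 1 ≤ p j' then 1 else 0)) := by
  unfold Qn
  have e : ∀ j, ∑ j' ∈ univ.erase j, ∑ p ∈ nv ι n,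
      (2 : ℝ) ^ lN p * ((if 1 ≤ p j then 1 else 0) * (if 1 ≤ p j' then 1 else 0)) =
      ∑ p ∈ nv ι n, ∑ j' ∈ univ.erase j,
      2 ^ lN p * ((if 1 ≤ p j then 1 else 0) * (if 1 ≤ p j' then 1 else 0)) := fun j => sum_comm
  rw [sum_congr rfl fun j _ => e j, sum_comm]
  refine sum_congr rfl fun p _ => ?_
  have e2 : ∀ j : ι, ∑ j' ∈ univ.erase j,
      (2 : ℝ) ^ lN p * ((if 1 ≤ p j then 1 else 0) * (if 1 ≤ p j' then 1 else 0)) =
      2 ^ lN p * ((if 1 ≤ p j then 1 else 0) * ((lN p : ℝ) - 1)) := by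
    intro j
    rw [← mul_sum, ← mul_sum]
    congr 1
    by_cases h : 1 ≤ p j
    · rw [if_pos h, one_mul, one_mul, lN_eq, ← add_sum_erase univ _ (mem_univ j), if_pos h]
      ring
    · rw [if_neg h, zero_mul, zero_mul]
  rw [sum_congr rfl fun j _ => e2 j, ← mul_sum, ← sum_mul, ← lN_eq]

theorem P_rec (n : ℕ) : Pn ι (n + 1) + Pn ι n = 2 * Fintype.card ι * Kn ι n := by
  rw [Pn_eq, Pn_eq, ← sum_add_distrib]
  have : ∀ j : ι, ∑ p ∈ nv ι (n + 1), 2 ^ lN p * ((if 1 ≤ p j then 1 else 0) * 1) +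
      ∑ p ∈ nv ι n, 2 ^ lN p * ((if 1 ≤ p j then 1 else 0) * 1) = 2 * Kn ι n := by
    intro j
    rw [sum_unit j n (fun _ => 1) (fun _ _ => rfl)]
    unfold Kn
    simp only [mul_one]
  rw [sum_congr rfl fun j _ => this j, sum_const, card_univ, nsmul_eq_mul]
  ring

theorem Q_rec (n : ℕ) : Qn ι (n + 1) + Qn ι n = (2 * Fintype.card ι - 2) * Pn ι n := by
  have e : ∀ m, Qn ι m = ∑ j, ∑ j' ∈ univ.erase j, ∑ p ∈ nv ι m,
      2 ^ lN p * ((if 1 ≤ p j' then 1 else 0) * (if 1 ≤ p j then 1 else 0)) := by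
    intro m
    rw [Qn_eq]
    refine sum_congr rfl fun j _ => sum_congr rfl fun j' _ => sum_congr rfl fun p _ => ?_
    ring
  rw [e, e, ← sum_add_distrib, Pn_eq, mul_sum]
  refine sum_congr rfl fun j _ => ?_
  rw [← sum_add_distrib]
  have : ∀ j' ∈ univ.erase j, ∑ p ∈ nv ι (n + 1),
        2 ^ lN p * ((if 1 ≤ p j' then 1 else 0) * (if 1 ≤ p j then 1 else 0)) +
      ∑ p ∈ nv ι n, 2 ^ lN p * ((if 1 ≤ p j' then 1 else 0) * (if 1 ≤ p j then 1 else 0)) =
      2 * ∑ p ∈ nv ι n, (2 : ℝ) ^ lN p * ((if 1 ≤ p j then 1 else 0) * 1) := by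
    intro j' hj'
    rw [mem_erase] at hj'
    rw [sum_unit j' n (fun p => if 1 ≤ p j then 1 else 0) (fun u x => by
      rw [Function.update_of_ne (Ne.symm hj'.1)])]
    simp only [mul_one]
  rw [sum_congr rfl this, sum_const, card_erase_of_mem (mem_univ j), card_univ, nsmul_eq_mul,
    Nat.cast_sub (Fintype.card_pos_iff.2 ⟨j⟩)]
  push_cast
  ring

theorem Kn_card (n : ℕ) : Kn ι n = #(Vn ι n) := by
  have := sum_Vn (ι := ι) n (fun _ => 1)
  unfold Kn
  rw [sum_const, nsmul_eq_mul, mul_one] at this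
  rw [this]
  simp only [mul_one]

theorem Pn_ell (n : ℕ) : Pn ι n = ∑ c ∈ Vn ι n, (ell c : ℝ) := by
  have := sum_Vn (ι := ι) n (fun u => (lN u : ℝ))
  unfold Pn
  rw [← this]
  exact sum_congr rfl fun c _ => by rw [ell_eq]

theorem P_K (n : ℕ) : Pn ι (n + 1) = (n + 1) * Kn ι (n + 1) - n * Kn ι n := by
  have := Pool.Agent.H2.GC.f ι n
  rw [Pn_ell, Kn_card, Kn_card]
  have h2 : (∑ c ∈ Vn ι (n + 1), (ell c : ℝ)) + n * (#(Vn ι n) : ℝ) =
      (n + 1) * (#(Vn ι (n + 1)) : ℝ) := by exact_mod_cast this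
  linarith

theorem nv_zero : nv ι 0 = {0} := by
  ext u
  rw [mem_nv, mem_singleton, sum_eq_zero_iff]
  exact ⟨fun h => funext fun i => h i (mem_univ i), fun h i _ => by rw [h]; rfl⟩

theorem Kn_zero : Kn ι 0 = 1 := by
  unfold Kn
  rw [nv_zero, sum_singleton]
  simp [lN]

theorem Pn_zero : Pn ι 0 = 0 := by
  unfold Pn
  rw [nv_zero, sum_singleton]
  simp [lN]

theorem Qn_zero : Qn ι 0 = 0 := by
  unfold Qn
  rw [nv_zero, sum_singleton]
  simp [lN]

theorem K_rec (n : ℕ) :
    (n + 2) * Kn ι (n + 2) = 2 * Fintype.card ι * Kn ι (n + 1) + n * Kn ι n := by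
  have h1 := P_rec (ι := ι) (n + 1)
  have h2 := P_K (ι := ι) (n + 1)
  have h3 := P_K (ι := ι) n
  push_cast at h1 h2 h3
  have h4 : (n : ℝ) + 1 + 1 = n + 2 := by ring
  rw [show n + 1 + 1 = n + 2 from rfl] at h1 h2
  rw [h4] at h2
  linarith

theorem Pn_one : Pn ι 1 = 2 * Fintype.card ι := by
  have h1 := P_rec (ι := ι) 0
  rw [Pn_zero, Kn_zero] at h1
  simpa using h1

theorem Kn_one : Kn ι 1 = 2 * Fintype.card ι := by
  have h1 := P_K (ι := ι) 0
  rw [zero_add, Pn_one] at h1
  simpa using h1.symm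

theorem Qn_one : Qn ι 1 = 0 := by
  have h1 := Q_rec (ι := ι) 0
  rw [Pn_zero, Qn_zero] at h1
  simpa using h1

/-- the sum over the pairs of directions of a bound vector -/
theorem pair_sum {n r q k : ℕ} (hr : 1 ≤ r) (hq : 1 ≤ q) (h : r + q + k = n + 1) :
    ∑ j : ι, ∑ j' : ι, ∑ p ∈ nv ι n,
      2 ^ lN p * (if ∀ t, sg j r t + sg j' q t ≤ p t then (1 : ℝ) else 0) =
      Qn ι (k + 1) + Pn ι k := by
  rw [Qn_eq, Pn_eq, ← sum_add_distrib]
  refine sum_congr rfl fun j _ => ?_
  rw [← add_sum_erase univ _ (mem_univ j), add_comm]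
  congr 1
  · refine sum_congr rfl fun j' hj' => ?_
    rw [mem_erase] at hj'
    have e1 : ∀ p : ι → ℕ, (if ∀ t, sg j r t + sg j' q t ≤ p t then (1 : ℝ) else 0) =
        (if r ≤ p j then 1 else 0) * (if q ≤ p j' then 1 else 0) := by
      intro p
      have e2 : (∀ t, sg j r t + sg j' q t ≤ p t) ↔ r ≤ p j ∧ q ≤ p j' := by
        unfold sg
        constructor
        · intro h1
          have h2 := h1 j
          have h3 := h1 j'
          rw [Pi.single_eq_same, Pi.single_eq_of_ne (Ne.symm hj'.1)] at h2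
          rw [Pi.single_eq_same, Pi.single_eq_of_ne hj'.1] at h3
          omega
        · rintro ⟨h1, h2⟩ t
          by_cases h3 : t = j
          · subst h3
            rw [Pi.single_eq_same, Pi.single_eq_of_ne (Ne.symm hj'.1)]
            omega
          · rw [Pi.single_eq_of_ne h3]
            by_cases h4 : t = j'
            · subst h4
              rw [Pi.single_eq_same]
              omega
            · rw [Pi.single_eq_of_ne h4]
              omega
      simp only [e2]
      by_cases h1 : r ≤ p j <;> by_cases h2 : q ≤ p j' <;> simp [h1, h2]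
    simp only [e1]
    have hn : n = (k + 1 + (q - 1)) + (r - 1) := by omega
    have s1 := sum_shift j (r - 1) (k + 1 + (q - 1)) (fun p => if q ≤ p j' then (1 : ℝ) else 0)
      (fun u x => by rw [Function.update_of_ne hj'.1])
    have s2 := sum_shift j' (q - 1) (k + 1) (fun p => if 1 ≤ p j then (1 : ℝ) else 0)
      (fun u x => by rw [Function.update_of_ne (Ne.symm hj'.1)])
    rw [Nat.sub_add_cancel hr] at s1
    rw [Nat.sub_add_cancel hq] at s2
    rw [hn, s1]
    have e3 : ∀ (p : ι → ℕ) (a b : ℕ), (if a ≤ p j then (1 : ℝ) else 0) *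
        (if b ≤ p j' then 1 else 0) = (if b ≤ p j' then 1 else 0) *
        (if a ≤ p j then (1 : ℝ) else 0) := fun p a b => mul_comm _ _
    simp only [e3]
    exact s2
  · have e1 : ∀ p : ι → ℕ, (if ∀ t, sg j r t + sg j q t ≤ p t then (1 : ℝ) else 0) =
        (if r + q ≤ p j then 1 else 0) * 1 := by
      intro p
      have e2 : (∀ t, sg j r t + sg j q t ≤ p t) ↔ r + q ≤ p j := by
        unfold sg
        constructor
        · intro h1
          have h2 := h1 j
          rw [Pi.single_eq_same, Pi.single_eq_same] at h2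
          exact h2
        · intro h1 t
          by_cases h3 : t = j
          · subst h3
            rw [Pi.single_eq_same, Pi.single_eq_same]
            exact h1
          · rw [Pi.single_eq_of_ne h3, Pi.single_eq_of_ne h3]
            omega
      simp only [e2, mul_one]
    simp only [e1]
    have hn : n = k + (r + q - 1) := by omega
    have s1 := sum_shift j (r + q - 1) k (fun _ => (1 : ℝ)) (fun _ _ => rfl)
    rw [Nat.sub_add_cancel (by omega)] at s1
    rw [hn, s1]

theorem sum_nv_FF {s n : ℕ} :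
    ∑ p ∈ nv ι n, 2 ^ lN p * FF s p = ∑ i ∈ range s, ∑ k ∈ range s,
      cc s i k * ∑ j : ι, ∑ j' : ι, ∑ p ∈ nv ι n,
        2 ^ lN p * (if ∀ t, sg j (rr s i k) t + sg j' (qq s i k) t ≤ p t
          then (1 : ℝ) else 0) := by
  unfold FF
  simp only [mul_sum]
  rw [sum_comm]
  have e1 : ∀ j : ι, ∑ p ∈ nv ι n, ∑ j' : ι, ∑ i ∈ range s, ∑ k ∈ range s,
      (2 : ℝ) ^ lN p * (cc s i k * (if ∀ t, sg j (rr s i k) t + sg j' (qq s i k) t ≤ p t
        then (1 : ℝ) else 0)) = ∑ i ∈ range s, ∑ k ∈ range s, ∑ j' : ι, ∑ p ∈ nv ι n,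
      cc s i k * (2 ^ lN p * (if ∀ t, sg j (rr s i k) t + sg j' (qq s i k) t ≤ p t
        then (1 : ℝ) else 0)) := by
    intro j
    rw [sum_comm]
    have e2 : ∀ j' : ι, ∑ p ∈ nv ι n, ∑ i ∈ range s, ∑ k ∈ range s,
      (2 : ℝ) ^ lN p * (cc s i k * (if ∀ t, sg j (rr s i k) t + sg j' (qq s i k) t ≤ p t
        then (1 : ℝ) else 0)) = ∑ i ∈ range s, ∑ k ∈ range s, ∑ p ∈ nv ι n,
      cc s i k * (2 ^ lN p * (if ∀ t, sg j (rr s i k) t + sg j' (qq s i k) t ≤ p t
        then (1 : ℝ) else 0)) := by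
      intro j'
      rw [sum_comm]
      refine sum_congr rfl fun i _ => ?_
      rw [sum_comm]
      refine sum_congr rfl fun k _ => sum_congr rfl fun p _ => ?_
      ring
    rw [sum_congr rfl fun j' _ => e2 j', sum_comm]
    refine sum_congr rfl fun i _ => ?_
    rw [sum_comm]
  rw [sum_congr rfl fun j _ => e1 j, sum_comm]
  refine sum_congr rfl fun i _ => ?_
  rw [sum_comm]

/-- the total weight of the certificate -/
theorem total_FF {s : ℕ} (hs : 1 ≤ s) :
    ∑ p ∈ nv ι (s + 1), 2 ^ lN p * FF s p + ∑ p ∈ nv ι (s + 2), 2 ^ lN p * FF s p =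
      ∑ i ∈ range s, ∑ k ∈ range s, cc s i k *
        ((2 * Fintype.card ι - 2) * Pn ι (i + k - s + 1) +
          2 * Fintype.card ι * Kn ι (i + k - s)) := by
  rw [sum_nv_FF, sum_nv_FF, ← sum_add_distrib]
  refine sum_congr rfl fun i hi => ?_
  rw [← sum_add_distrib]
  refine sum_congr rfl fun k hk => ?_
  rw [mem_range] at hi hk
  rw [← mul_add]
  congr 1
  have h1 : 1 ≤ rr s i k := by
    unfold rr
    split_ifs <;> omega
  have h2 : 1 ≤ qq s i k := by
    unfold qq
    split_ifs <;> omega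
  have h3 : rr s i k + qq s i k + (i + k - s) = s + 2 := by
    unfold rr qq
    split_ifs <;> omega
  rw [pair_sum h1 h2 (n := s + 1) (k := i + k - s) (by omega),
    pair_sum h1 h2 (n := s + 2) (k := i + k - s + 1) (by omega)]
  have h4 := Q_rec (ι := ι) (i + k - s + 1)
  have h5 := P_rec (ι := ι) (i + k - s)
  linarith

end

end Pool.Agent.H23.GF
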