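import Mathlib

/-!
# The final polynomial inequalities of the second moment argument
-/

set_option autoImplicit false

namespace Pool.Agent.H23.GF

noncomputable section

/-- the upper bound as a linear form in the sphere sizes; `s = n + 5` -/
def RF (n M β x y K3 K4 K5 : ℝ) : ℝ :=
  -(β + n + 4) * K5 + ((2 * β - (n + 6)) * (n + 4) - (n + 4) * (M + n + 4)) * K4 +
    (n + 5) / (n + 4) * ((M - 1) * (n + 4) * K4 - (M - 2) * (n + 3) * K3 - (n + 2) * x) +
    2 * (n + 5) / (n + 3) * ((M - 1) * (n + 3) * K3 - (M - 2) * (n + 2) * x - (n + 1) * y) +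
    (n + 5) * (3 * n + 10) / ((n + 3) * (n + 2)) *
      ((M - 1) * (n + 2) * x - (M - 2) * (n + 1) * y) +
    7 / 6 * (4 * (n + 5) * (n + 3) / (n + 2)) * (M - 1) * y + 64 * x

/-- a coefficient -/
def A_one (n M : ℝ) : ℝ :=
    (-2)*n^6 + 1*n^5*M + (-41)*n^5 + (-1)*n^4*M^2 + 21*n^4*M + (-282)*n^4 + (-14)*n^3*M^2 +
    173*n^3*M + (-649)*n^3 + (-71)*n^2*M^2 + 693*n^2*M + 670*n^2 + (-154)*n*M^2 + 1336*n*M +
    4652*n + (-120)*M^2 + 980*M + 4760

/-- a coefficient -/
def B_one (n M : ℝ) : ℝ :=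
    (2/3)*n^5*M + (-5/3)*n^5 + (70/3)*n^4*M + (-103/3)*n^4 + (796/3)*n^3*M + (-877/3)*n^3 +
    (4094/3)*n^2*M + (-3869/3)*n^2 + 3306*n*M + (-2954)*n + 3080*M + (-2820)

/-- the linear form in the two smallest sphere sizes -/
theorem form_one (n M x y K3 K4 K5 : ℝ) (hn : 0 ≤ n)
    (h3 : (n + 3) * K3 = M * x + (n + 1) * y)
    (h4 : (n + 4) * K4 = M * K3 + (n + 2) * x)
    (h5 : (n + 5) * K5 = M * K4 + (n + 3) * K3) :
    (n + 5) * (n + 4) * (n + 3) * (n + 2) * RF n M 1 x y K3 K4 K5 =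
      A_one n M * x + (B_one n M) * y := by
  have e3 : K3 = (M * x + (n + 1) * y) / (n + 3) := by
    rw [eq_div_iff (by positivity)]
    linarith
  have e4 : K4 = (M * K3 + (n + 2) * x) / (n + 4) := by
    rw [eq_div_iff (by positivity)]
    linarith
  have e5 : K5 = (M * K4 + (n + 3) * K3) / (n + 5) := by
    rw [eq_div_iff (by positivity)]
    linarith
  have p2 : n + 2 ≠ 0 := by positivity
  have p3 : n + 3 ≠ 0 := by positivity
  have p4 : n + 4 ≠ 0 := by positivity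
  have p5 : n + 5 ≠ 0 := by positivity
  unfold RF A_one B_one
  rw [e5, e4, e3]
  field_simp
  ring

theorem neg_one_8 (u w : ℝ) (hu : 0 ≤ u) (hw : 0 ≤ w) (n M : ℝ) (hn : n = u + 3)
    (hM : M = w + ((u + 8) ^ 2 + 2 * (u + 8) - 6)) :
    0 ≤ B_one n M ∧ A_one n M * M + B_one n M * (n + 2) < 0 := by
  constructor
  · have e : B_one n M =
    (2/3)*u^7 + (136/3)*u^6 + (2/3)*u^5*w + 1253*u^5 + (100/3)*u^4*w + 18496*u^4 +
    (1816/3)*u^3*w + (476569/3)*u^3 + (15578/3)*u^2*w + (2395778/3)*u^2 + 21448*u*w + 2185112*u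
    + 34496*w + 2518336 := by
      unfold B_one
      rw [hn, hM]
      ring
    rw [e]
    positivity
  · have e : A_one n M * M + B_one n M * (n + 2) = -(
    1*u^10 + 79*u^9 + 3*u^8*w + (8335/3)*u^8 + 184*u^7*w + (171808/3)*u^7 + 3*u^6*w^2 +
    (14611/3)*u^6*w + (2298268/3)*u^6 + 131*u^5*w^2 + (218041/3)*u^5*w + 6948212*u^5 + 1*u^4*w^3
    + 2343*u^4*w^2 + 669023*u^4*w + (129800312/3)*u^4 + 26*u^3*w^3 + 22009*u^3*w^2 +
    (11673479/3)*u^3*w + (547922189/3)*u^3 + 251*u^2*w^3 + 114672*u^2*w^2 + (41908883/3)*u^2*w +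
    (1500467840/3)*u^2 + 1066*u*w^3 + 314534*u*w^2 + 28313636*u*w + 802320952*u + 1680*w^3 +
    355120*w^2 + 24813280*w + 572493760) := by
      unfold A_one B_one
      rw [hn, hM]
      ring
    rw [e, neg_lt_zero]
    positivity

theorem neg_one_5 (w : ℝ) (hw : 0 ≤ w) (n M : ℝ) (hn : n = 0) (hM : M = w + 44) :
    0 ≤ B_one n M ∧ A_one n M * M + B_one n M * (n + 2) < 0 := by
  constructor
  · have e : B_one n M =
    3080*w + 132700 := by
      unfold B_one
      rw [hn, hM]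
      ring
    rw [e]
    positivity
  · have e : A_one n M * M + B_one n M * (n + 2) = -(
    120*w^3 + 14860*w^2 + 599800*w + 7849960) := by
      unfold A_one B_one
      rw [hn, hM]
      ring
    rw [e, neg_lt_zero]
    positivity

theorem neg_one_6 (w : ℝ) (hw : 0 ≤ w) (n M : ℝ) (hn : n = 1) (hM : M = w + 58) :
    0 ≤ B_one n M ∧ A_one n M * M + B_one n M * (n + 2) < 0 := by
  constructor
  · have e : B_one n M =
    8040*w + 458928 := by
      unfold B_one
      rw [hn, hM]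
      ring
    rw [e]
    positivity
  · have e : A_one n M * M + B_one n M * (n + 2) = -(
    360*w^3 + 59436*w^2 + 3228228*w + 57557016) := by
      unfold A_one B_one
      rw [hn, hM]
      ring
    rw [e, neg_lt_zero]
    positivity

theorem neg_one_7 (w : ℝ) (hw : 0 ≤ w) (n M : ℝ) (hn : n = 2) (hM : M = w + 74) :
    0 ≤ B_one n M ∧ A_one n M * M + B_one n M * (n + 2) < 0 := by
  constructor
  · have e : B_one n M =
    17668*w + 1290604 := by
      unfold B_one
      rw [hn, hM]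
      ring
    rw [e]
    positivity
  · have e : A_one n M * M + B_one n M * (n + 2) = -(
    840*w^3 + 178304*w^2 + 12513200*w + 290039568) := by
      unfold A_one B_one
      rw [hn, hM]
      ring
    rw [e, neg_lt_zero]
    positivity

/-- a coefficient -/
def A_top (n M : ℝ) : ℝ :=
    1*n^5*M + (-3)*n^5 + 1*n^4*M^2 + 19*n^4*M + 12*n^4 + 14*n^3*M^2 + 151*n^3*M + 537*n^3 +
    (-1)*n^2*M^3 + 71*n^2*M^2 + 603*n^2*M + 3302*n^2 + (-5)*n*M^3 + 154*n*M^2 + 1174*n*M +
    7700*n + (-6)*M^3 + 120*M^2 + 872*M + 6200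

/-- a coefficient -/
def B_top (n M : ℝ) : ℝ :=
    (8/3)*n^5*M + (-8/3)*n^5 + (160/3)*n^4*M + (-142/3)*n^4 + (1306/3)*n^3*M + (-1072/3)*n^3 +
    (5444/3)*n^2*M + (-4334/3)*n^2 + 3854*n*M + (-3128)*n + 3320*M + (-2892)

/-- the linear form in the two smallest sphere sizes -/
theorem form_top (n M x y K3 K4 K5 : ℝ) (hn : 0 ≤ n)
    (h3 : (n + 3) * K3 = M * x + (n + 1) * y)
    (h4 : (n + 4) * K4 = M * K3 + (n + 2) * x)
    (h5 : (n + 5) * K5 = M * K4 + (n + 3) * K3) :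
    (n + 5) * (n + 4) * (n + 3) * (n + 2) * RF n M (n + 4) x y K3 K4 K5 =
      A_top n M * x + (B_top n M - (n + 1) * (n + 2) * (n + 3) * M ^ 2) * y := by
  have e3 : K3 = (M * x + (n + 1) * y) / (n + 3) := by
    rw [eq_div_iff (by positivity)]
    linarith
  have e4 : K4 = (M * K3 + (n + 2) * x) / (n + 4) := by
    rw [eq_div_iff (by positivity)]
    linarith
  have e5 : K5 = (M * K4 + (n + 3) * K3) / (n + 5) := by
    rw [eq_div_iff (by positivity)]
    linarith
  have p2 : n + 2 ≠ 0 := by positivity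
  have p3 : n + 3 ≠ 0 := by positivity
  have p4 : n + 4 ≠ 0 := by positivity
  have p5 : n + 5 ≠ 0 := by positivity
  unfold RF A_top B_top
  rw [e5, e4, e3]
  field_simp
  ring

theorem neg_top_8 (u w : ℝ) (hu : 0 ≤ u) (hw : 0 ≤ w) (n M : ℝ) (hn : n = u + 3)
    (hM : M = w + ((u + 8) ^ 2 + 2 * (u + 8) - 6)) :
    0 ≤ B_top n M ∧ A_top n M * M + B_top n M * (n + 2) < 0 := by
  constructor
  · have e : B_top n M =
    (8/3)*u^7 + (424/3)*u^6 + (8/3)*u^5*w + 3190*u^5 + (280/3)*u^4*w + 39828*u^4 +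
    (3946/3)*u^3*w + (892480/3)*u^3 + (27998/3)*u^2*w + (3991994/3)*u^2 + 33336*u*w + 3302076*u
    + 47936*w + 3507856 := by
      unfold B_top
      rw [hn, hM]
      ring
    rw [e]
    positivity
  · have e : A_top n M * M + B_top n M * (n + 2) = -(
    2*u^9 + 1*u^8*w + (421/3)*u^8 + 72*u^7*w + (12922/3)*u^7 + 3*u^6*w^2 + (6565/3)*u^6*w +
    (227383/3)*u^6 + 149*u^5*w^2 + (110353/3)*u^5*w + 841717*u^5 + 3*u^4*w^3 + 2975*u^4*w^2 +
    374975*u^4*w + (18338957/3)*u^4 + 90*u^3*w^3 + 30623*u^3*w^2 + (7139015/3)*u^3*w +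
    (87048014/3)*u^3 + 1*u^2*w^4 + 957*u^2*w^3 + 172056*u^2*w^2 + (27610679/3)*u^2*w +
    (260251100/3)*u^2 + 11*u*w^4 + 4350*u*w^3 + 502238*u*w^2 + 19878092*u*w + 148131252*u +
    30*w^4 + 7200*w^3 + 597040*w^2 + 18393760*w + 109959760) := by
      unfold A_top B_top
      rw [hn, hM]
      ring
    rw [e, neg_lt_zero]
    positivity

theorem neg_top_5 (w : ℝ) (hw : 0 ≤ w) (n M : ℝ) (hn : n = 0) (hM : M = w + 44) :
    0 ≤ B_top n M ∧ A_top n M * M + B_top n M * (n + 2) < 0 := by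
  constructor
  · have e : B_top n M =
    3320*w + 143188 := by
      unfold B_top
      rw [hn, hM]
      ring
    rw [e]
    positivity
  · have e : A_top n M * M + B_top n M * (n + 2) = -(
    6*w^4 + 936*w^3 + 52984*w^2 + 1257880*w + 10019128) := by
      unfold A_top B_top
      rw [hn, hM]
      ring
    rw [e, neg_lt_zero]
    positivity

theorem neg_top_6 (w : ℝ) (hw : 0 ≤ w) (n M : ℝ) (hn : n = 1) (hM : M = w + 58) :
    0 ≤ B_top n M ∧ A_top n M * M + B_top n M * (n + 2) < 0 := by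
  constructor
  · have e : B_top n M =
    9480*w + 541968 := by
      unfold B_top
      rw [hn, hM]
      ring
    rw [e]
    positivity
  · have e : A_top n M * M + B_top n M * (n + 2) = -(
    12*w^4 + 2424*w^3 + 176748*w^2 + 5358948*w + 53415864) := by
      unfold A_top B_top
      rw [hn, hM]
      ring
    rw [e, neg_lt_zero]
    positivity

theorem neg_top_7 (w : ℝ) (hw : 0 ≤ w) (n M : ℝ) (hn : n = 2) (hM : M = w + 74) :
    0 ≤ B_top n M ∧ A_top n M * M + B_top n M * (n + 2) < 0 := by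
  constructor
  · have e : B_top n M =
    22708*w + 1661764 := by
      unfold B_top
      rw [hn, hM]
      ring
    rw [e]
    positivity
  · have e : A_top n M * M + B_top n M * (n + 2) = -(
    20*w^4 + 5080*w^3 + 463464*w^2 + 17426320*w + 210499728) := by
      unfold A_top B_top
      rw [hn, hM]
      ring
    rw [e, neg_lt_zero]
    positivity

theorem neg_of_form {n M x y A B R : ℝ} (hn : 0 ≤ n) (hM : 0 < M)
    (h : (n + 5) * (n + 4) * (n + 3) * (n + 2) * R ≤ A * x + B * y) (hB : 0 ≤ B)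
    (hAB : A * M + B * (n + 2) < 0) (hx : 0 < x) (hy : M * y ≤ (n + 2) * x) : R < 0 := by
  have h1 : M * (A * x + B * y) ≤ (A * M + B * (n + 2)) * x := by
    nlinarith [mul_le_mul_of_nonneg_left hy hB]
  have h2 : (A * M + B * (n + 2)) * x < 0 := mul_neg_of_neg_of_pos hAB hx
  have h3 : M * ((n + 5) * (n + 4) * (n + 3) * (n + 2) * R) < 0 :=
    lt_of_le_of_lt ((mul_le_mul_of_nonneg_left h hM.le).trans h1) h2
  by_contra h4
  push Not at h4
  have : 0 ≤ M * ((n + 5) * (n + 4) * (n + 3) * (n + 2) * R) := by positivity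
  linarith

/-- the final inequality -/
theorem RF_neg (k : ℕ) (M β x y K3 K4 K5 : ℝ)
    (hM : (3 ≤ k ∧ ((k : ℝ) + 5) ^ 2 + 2 * (k + 5) - 6 ≤ M) ∨
      (k ≤ 2 ∧ ((k : ℝ) + 5) ^ 2 + 3 * (k + 5) + 4 ≤ M))
    (h3 : (k + 3) * K3 = M * x + (k + 1) * y)
    (h4 : (k + 4) * K4 = M * K3 + (k + 2) * x)
    (h5 : (k + 5) * K5 = M * K4 + (k + 3) * K3)
    (hx : 0 < x) (hy0 : 0 ≤ y) (hy : M * y ≤ (k + 2) * x) (hβ : 1 ≤ β) (hβ' : β ≤ k + 4) :
    RF k M β x y K3 K4 K5 < 0 := by
  have hk : (0 : ℝ) ≤ k := Nat.cast_nonneg k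
  have hM0 : 0 < M := by
    rcases hM with ⟨_, h⟩ | ⟨_, h⟩
    · nlinarith
    · nlinarith
  have key : (0 ≤ B_one k M ∧ A_one k M * M + B_one k M * (k + 2) < 0) ∧
      (0 ≤ B_top k M ∧ A_top k M * M + B_top k M * (k + 2) < 0) := by
    rcases hM with ⟨h1, h2⟩ | ⟨h1, h2⟩
    · have h3 : (3 : ℝ) ≤ k := by exact_mod_cast h1
      have e : (k : ℝ) - 3 + 8 = k + 5 := by ring
      exact ⟨neg_one_8 (k - 3) (M - ((k + 5) ^ 2 + 2 * (k + 5) - 6)) (by linarith) (by linarith)
          k M (by ring) (by rw [e]; ring),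
        neg_top_8 (k - 3) (M - ((k + 5) ^ 2 + 2 * (k + 5) - 6)) (by linarith) (by linarith)
          k M (by ring) (by rw [e]; ring)⟩
    · interval_cases k
      · norm_num at h2
        exact ⟨neg_one_5 (M - 44) (by linarith) _ M (by norm_num) (by ring),
          neg_top_5 (M - 44) (by linarith) _ M (by norm_num) (by ring)⟩
      · norm_num at h2
        exact ⟨neg_one_6 (M - 58) (by linarith) _ M (by norm_num) (by ring),
          neg_top_6 (M - 58) (by linarith) _ M (by norm_num) (by ring)⟩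
      · norm_num at h2
        exact ⟨neg_one_7 (M - 74) (by linarith) _ M (by norm_num) (by ring),
          neg_top_7 (M - 74) (by linarith) _ M (by norm_num) (by ring)⟩
  have r1 : RF k M 1 x y K3 K4 K5 < 0 :=
    neg_of_form hk hM0 (form_one k M x y K3 K4 K5 hk h3 h4 h5).le key.1.1 key.1.2 hx hy
  have r2 : RF k M (k + 4) x y K3 K4 K5 < 0 := by
    refine neg_of_form hk hM0 ?_ key.2.1 key.2.2 hx hy
    rw [form_top k M x y K3 K4 K5 hk h3 h4 h5]
    have : 0 ≤ ((k : ℝ) + 1) * (k + 2) * (k + 3) * M ^ 2 * y := by positivity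
    nlinarith
  have e : (k + 3) * RF k M β x y K3 K4 K5 =
      (k + 4 - β) * RF k M 1 x y K3 K4 K5 + (β - 1) * RF k M (k + 4) x y K3 K4 K5 := by
    unfold RF
    ring
  have e2 : (k + 3) * RF k M β x y K3 K4 K5 < 0 := by
    rw [e]
    rcases eq_or_lt_of_le hβ with h | h
    · rw [← h]
      have : (0 : ℝ) < k + 4 - 1 := by linarith
      nlinarith
    · have h7 : (β - 1) * RF k M (k + 4) x y K3 K4 K5 < 0 :=
        mul_neg_of_pos_of_neg (by linarith) r2
      have h8 : (k + 4 - β) * RF k M 1 x y K3 K4 K5 ≤ 0 :=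
        mul_nonpos_of_nonneg_of_nonpos (by linarith) r1.le
      linarith
  by_contra h7
  push Not at h7
  have : 0 ≤ ((k : ℝ) + 3) * RF k M β x y K3 K4 K5 := by positivity
  linarith

end

end Pool.Agent.H23.GF
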