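import Pool.Agent.H23.GF.Cert

/-!
# The coefficients of the certificate
-/

set_option autoImplicit false

open Finset
open scoped Classical

namespace Pool.Agent.H23.GF

noncomputable section

/-- the numerator of `Zt` -/
def zN (s t : ℕ) : ℝ := ∑ i ∈ Ico (t + 1) s, ((s + t).choose i : ℝ)

/-- the total coefficient of level `t` -/
def Zt (s t : ℕ) : ℝ := zN s t / (s + t).choose s

theorem sum_cc (n : ℕ) (f : ℕ → ℝ) :
    ∑ i ∈ range (n + 1), ∑ k ∈ range (n + 1), cc (n + 1) i k * f (i + k - (n + 1)) =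
      (2 ^ (n + 1) - 1) * f 0 + ∑ t ∈ range n, Zt (n + 1) t * f t := by
  rw [← sum_product']
  have hmap : ∀ p ∈ range (n + 1) ×ˢ range (n + 1), p.1 + p.2 ∈ range ((n + 1) + n) := by
    intro p hp
    rw [mem_product, mem_range, mem_range] at hp
    rw [mem_range]
    omega
  rw [← sum_fiberwise_of_maps_to hmap, sum_range_add]
  congr 1
  · have e1 : ∀ N ∈ range (n + 1), ∑ p ∈ range (n + 1) ×ˢ range (n + 1) with p.1 + p.2 = N,
        cc (n + 1) p.1 p.2 * f (p.1 + p.2 - (n + 1)) = 2 ^ N * f 0 := by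
      intro N hN
      rw [mem_range] at hN
      have e2 : ∑ p ∈ range (n + 1) ×ˢ range (n + 1) with p.1 + p.2 = N,
          cc (n + 1) p.1 p.2 * f (p.1 + p.2 - (n + 1)) =
          ∑ i ∈ range (N + 1), (N.choose i : ℝ) * f 0 := by
        refine sum_bij' (fun p _ => p.1) (fun i _ => (i, N - i)) ?_ ?_ ?_ ?_ ?_
        · intro p hp
          rw [mem_filter, mem_product, mem_range, mem_range] at hp
          rw [mem_range]
          omega
        · intro i hi
          rw [mem_range] at hi
          rw [mem_filter, mem_product, mem_range, mem_range]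
          show (i < n + 1 ∧ N - i < n + 1) ∧ i + (N - i) = N
          omega
        · intro p hp
          rw [mem_filter, mem_product, mem_range, mem_range] at hp
          ext
          · rfl
          · show N - p.1 = p.2
            omega
        · intro i _
          rfl
        · intro p hp
          rw [mem_filter, mem_product, mem_range, mem_range] at hp
          unfold cc
          rw [if_neg (by omega), hp.2, Nat.sub_eq_zero_of_le (by omega)]
      rw [e2, ← sum_mul]
      congr 1
      have := Nat.sum_range_choose N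
      exact_mod_cast this
    rw [sum_congr rfl e1, ← sum_mul]
    congr 1
    have := geom_sum_eq (x := (2 : ℝ)) (by norm_num) (n + 1)
    rw [this]
    ring
  · refine sum_congr rfl fun t ht => ?_
    rw [mem_range] at ht
    unfold Zt zN
    rw [div_mul_eq_mul_div, sum_mul, sum_div]
    refine sum_bij' (fun p _ => p.1) (fun i _ => (i, n + 1 + t - i)) ?_ ?_ ?_ ?_ ?_
    · intro p hp
      rw [mem_filter, mem_product, mem_range, mem_range] at hp
      rw [mem_Ico]
      omega
    · intro i hi
      rw [mem_Ico] at hi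
      rw [mem_filter, mem_product, mem_range, mem_range]
      show (i < n + 1 ∧ n + 1 + t - i < n + 1) ∧ i + (n + 1 + t - i) = n + 1 + t
      omega
    · intro p hp
      rw [mem_filter, mem_product, mem_range, mem_range] at hp
      ext
      · rfl
      · show n + 1 + t - p.1 = p.2
        omega
    · intro i _
      rfl
    · intro p hp
      rw [mem_filter, mem_product, mem_range, mem_range] at hp
      unfold cc
      rw [if_pos (by omega), hp.2, Nat.add_sub_cancel_left]
      ring

/-- Pascal recursion -/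
theorem zN_rec {s t : ℕ} (h : t + 2 ≤ s) :
    zN s (t + 1) + 2 * ((s + t).choose (t + 1) : ℝ) = 2 * zN s t := by
  unfold zN
  have e1 : ∑ i ∈ Ico (t + 1 + 1) s, ((s + (t + 1)).choose i : ℝ) =
      ∑ i ∈ Ico (t + 1 + 1) s, ((s + t).choose i : ℝ) +
      ∑ i ∈ Ico (t + 1) (s - 1), ((s + t).choose i : ℝ) := by
    have e2 : ∑ i ∈ Ico (t + 1) (s - 1), ((s + t).choose i : ℝ) =
        ∑ i ∈ Ico (t + 1 + 1) s, ((s + t).choose (i - 1) : ℝ) := by
      refine sum_bij' (fun i _ => i + 1) (fun i _ => i - 1) ?_ ?_ ?_ ?_ ?_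
      · intro i hi
        rw [mem_Ico] at hi ⊢
        omega
      · intro i hi
        rw [mem_Ico] at hi ⊢
        omega
      · intro i _
        rfl
      · intro i hi
        rw [mem_Ico] at hi
        show i - 1 + 1 = i
        omega
      · intro i _
        rfl
    rw [e2, ← sum_add_distrib]
    refine sum_congr rfl fun i hi => ?_
    rw [mem_Ico] at hi
    obtain ⟨k, rfl⟩ : ∃ k, i = k + 1 := ⟨i - 1, by omega⟩
    rw [show s + (t + 1) = s + t + 1 from rfl, Nat.choose_succ_succ', Nat.add_sub_cancel]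
    push_cast
    ring
  have e3 : ∑ i ∈ Ico (t + 1) s, ((s + t).choose i : ℝ) = ((s + t).choose (t + 1) : ℝ) +
      ∑ i ∈ Ico (t + 1 + 1) s, ((s + t).choose i : ℝ) :=
    sum_eq_sum_Ico_succ_bot (by omega) _
  have e4 : ∑ i ∈ Ico (t + 1) s, ((s + t).choose i : ℝ) =
      ∑ i ∈ Ico (t + 1) (s - 1), ((s + t).choose i : ℝ) + ((s + t).choose (t + 1) : ℝ) := by
    obtain ⟨k, rfl⟩ : ∃ k, s = k + 1 := ⟨s - 1, by omega⟩
    rw [sum_Ico_succ_top (by omega), Nat.add_sub_cancel]
    congr 2
    rw [← Nat.choose_symm (by omega)]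
    congr 1
    omega
  rw [e1]
  linarith

theorem Zt_rec {s t : ℕ} (h : t + 2 ≤ s) :
    ((t : ℝ) + 1) * Zt s t = ((s : ℝ) + t + 1) / 2 * Zt s (t + 1) + s := by
  have h1 := zN_rec h
  unfold Zt
  have hp : (0 : ℝ) < ((s + t).choose s : ℝ) := by
    exact_mod_cast Nat.choose_pos (Nat.le_add_right s t)
  have hp' : (0 : ℝ) < ((s + (t + 1)).choose s : ℝ) := by
    exact_mod_cast Nat.choose_pos (Nat.le_add_right s (t + 1))
  -- (t + 1) C (s + t + 1, s) = (s + t + 1) C (s + t, s)
  have h2 : ((t : ℝ) + 1) * ((s + (t + 1)).choose s : ℝ) = (s + t + 1) * ((s + t).choose s : ℝ) := by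
    have h3 : (s + t + 1).choose s = (s + t + 1).choose (t + 1) := by
      rw [← Nat.choose_symm (by omega)]
      congr 1
      omega
    have h4 : (s + t).choose s = (s + t).choose t := by
      rw [← Nat.choose_symm (by omega)]
      congr 1
      omega
    have h5 := Nat.add_one_mul_choose_eq (s + t) t
    rw [show s + (t + 1) = s + t + 1 from rfl, h3, h4]
    have h6 : (((s + t + 1) * (s + t).choose t : ℕ) : ℝ) =
        (((s + t + 1).choose (t + 1) * (t + 1) : ℕ) : ℝ) := by exact_mod_cast h5
    push_cast at h6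
    linarith
  -- (t + 1) C (s + t, t + 1) = s C (s + t, s)
  have h3 : ((t : ℝ) + 1) * ((s + t).choose (t + 1) : ℝ) = s * ((s + t).choose s : ℝ) := by
    have h4 : (s + t).choose s = (s + t).choose t := by
      rw [← Nat.choose_symm (by omega)]
      congr 1
      omega
    have h5 := Nat.choose_succ_right_eq (s + t) t
    rw [Nat.add_sub_cancel] at h5
    rw [h4]
    have h6 : (((s + t).choose (t + 1) * (t + 1) : ℕ) : ℝ) = (((s + t).choose t * s : ℕ) : ℝ) := by
      exact_mod_cast h5
    push_cast at h6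
    linarith
  have h7 : zN s (t + 1) / ((s + (t + 1)).choose s : ℝ) =
      (t + 1) * zN s (t + 1) / ((s + t + 1) * ((s + t).choose s : ℝ)) := by
    rw [← h2, mul_div_mul_left _ _ (by positivity)]
  rw [h7]
  have h8 : ((s : ℝ) + t + 1) ≠ 0 := by positivity
  field_simp
  have h9 : ((t : ℝ) + 1) * (2 * zN s t) = (t + 1) * zN s (t + 1) +
      2 * (s * ((s + t).choose s : ℝ)) := by
    rw [← h1, ← h3]
    ring
  linarith

theorem Zt_last {s : ℕ} (h : 1 ≤ s) : Zt s (s - 1) = 0 := by
  unfold Zt zN
  rw [Nat.sub_add_cancel h, Ico_self, sum_empty, zero_div]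

/-- lower bound -/
theorem Zt_ge {s t : ℕ} (h : t + 1 ≤ s) : (s : ℝ) - 1 - t ≤ Zt s t := by
  obtain ⟨d, hd⟩ : ∃ d, t + d + 1 = s := ⟨s - t - 1, by omega⟩
  induction d generalizing t with
  | zero =>
    have h1 : t = s - 1 := by omega
    rw [h1, Zt_last (by omega), Nat.cast_sub (by omega)]
    push_cast
    linarith
  | succ d ih =>
    have h1 := ih (t := t + 1) (by omega) (by omega)
    have h2 := Zt_rec (s := s) (t := t) (by omega)
    push_cast at h1
    have h3 : (t : ℝ) + 2 ≤ s := by exact_mod_cast (by omega : t + 2 ≤ s)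
    have ht : (0 : ℝ) ≤ t := Nat.cast_nonneg t
    have h4 : ((s : ℝ) + t + 1) / 2 * ((s : ℝ) - 1 - (t + 1)) ≤
        ((s : ℝ) + t + 1) / 2 * Zt s (t + 1) :=
      mul_le_mul_of_nonneg_left h1 (by positivity)
    have h5 : ((t : ℝ) + 1) * ((s : ℝ) - 1 - t) ≤ ((t : ℝ) + 1) * Zt s t := by
      rw [h2]
      nlinarith
    exact le_of_mul_le_mul_left h5 (by positivity)

theorem Zt_nonneg (s t : ℕ) : 0 ≤ Zt s t := by
  unfold Zt zN
  positivity

end

end Pool.Agent.H23.GF
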