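import Pool.Agent.H23.GF.Red
import Pool.Agent.H23.GF.Zs
import Pool.Agent.H23.GF.Poly

/-!
# The classes `2, ..., s` (`s ≥ 5`)
-/

set_option autoImplicit false

open Finset Pool.Agent.H23.GW Pool.Agent.H23.GC
open scoped Classical

namespace Pool.Agent.H23.GF

noncomputable section

variable {ι : Type} [Fintype ι] {G : Type} [AddCommGroup G]

theorem Kn_nonneg (n : ℕ) : 0 ≤ Kn ι n := by
  unfold Kn
  positivity

/-- `M K n ≤ (n + 1) K (n + 1)` -/
theorem K_ge (n : ℕ) : 2 * Fintype.card ι * Kn ι n ≤ (n + 1) * Kn ι (n + 1) := by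
  rcases n with _ | n
  · rw [Kn_zero, zero_add, Kn_one]
    simp
  · have h1 := K_rec (ι := ι) n
    have h2 : 0 ≤ (n : ℝ) * Kn ι n := mul_nonneg (Nat.cast_nonneg n) (Kn_nonneg n)
    push_cast
    rw [show n + 1 + 1 = n + 2 from rfl]
    linarith

theorem Kn_pos (hm : 1 ≤ Fintype.card ι) (n : ℕ) : 0 < Kn ι n := by
  have hm' : (1 : ℝ) ≤ Fintype.card ι := by exact_mod_cast hm
  induction n with
  | zero => rw [Kn_zero]; norm_num
  | succ n ih =>
    have h1 := K_ge (ι := ι) n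
    have h2 : 0 < 2 * (Fintype.card ι : ℝ) * Kn ι n := by positivity
    have h3 : 0 < ((n : ℝ) + 1) * Kn ι (n + 1) := by linarith
    exact (pos_iff_pos_of_mul_pos h3).1 (by positivity)

theorem Wt_zero : Wt ι 0 = (2 * Fintype.card ι - 1) * Kn ι 1 := by
  unfold Wt
  rw [zero_add, Pn_one, Kn_zero, Kn_one]
  ring

theorem Wt_succ (t : ℕ) : Wt ι (t + 1) = (2 * Fintype.card ι - 1) * (t + 2) * Kn ι (t + 2) -
    (2 * Fintype.card ι - 2) * (t + 1) * Kn ι (t + 1) - t * Kn ι t := by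
  unfold Wt
  have h1 := P_K (ι := ι) (t + 1)
  have h2 := K_rec (ι := ι) t
  rw [show t + 1 + 1 = t + 2 from rfl] at h1 ⊢
  rw [h1]
  push_cast
  linear_combination -h2

theorem Wt_le (hm : 1 ≤ Fintype.card ι) (t : ℕ) :
    Wt ι t ≤ (2 * Fintype.card ι - 1) * (t + 1) * Kn ι (t + 1) := by
  have hm' : (1 : ℝ) ≤ Fintype.card ι := by exact_mod_cast hm
  rcases t with _ | t
  · rw [Wt_zero]
    simp
  · rw [Wt_succ]
    have h1 : 0 ≤ (2 * (Fintype.card ι : ℝ) - 2) * (t + 1) * Kn ι (t + 1) :=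
      mul_nonneg (mul_nonneg (by linarith) (by positivity)) (Kn_nonneg _)
    have h2 : 0 ≤ (t : ℝ) * Kn ι t := mul_nonneg (Nat.cast_nonneg t) (Kn_nonneg t)
    push_cast
    rw [show t + 1 + 1 = t + 2 from rfl]
    have h3 : ((t : ℝ) + 1 + 1) = t + 2 := by ring
    rw [h3]
    linarith

/-- the tail -/
theorem tail (hm : 1 ≤ Fintype.card ι) {s : ℕ}
    (hM : 35 * (s : ℝ) ≤ 4 * (2 * Fintype.card ι)) (r : ℕ) (hr : r + 5 ≤ s) :
    ∑ t ∈ range (r + 1), Zt s t * Wt ι t ≤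
      7 / 6 * (Zt s r * ((2 * Fintype.card ι - 1) * (r + 1) * Kn ι (r + 1))) := by
  have hm' : (1 : ℝ) ≤ Fintype.card ι := by exact_mod_cast hm
  induction r with
  | zero =>
    rw [zero_add, sum_range_one]
    have h1 := mul_le_mul_of_nonneg_left (Wt_le hm 0) (Zt_nonneg s 0)
    have h2 : 0 ≤ Zt s 0 * ((2 * (Fintype.card ι : ℝ) - 1) * (0 + 1) * Kn ι 1) :=
      mul_nonneg (Zt_nonneg s 0) (mul_nonneg (mul_nonneg (by linarith) (by positivity))
        (Kn_nonneg _))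
    rw [zero_add, Nat.cast_zero] at h1
    rw [Nat.cast_zero]
    linarith
  | succ r ih =>
    rw [sum_range_succ]
    have h1 := ih (by omega)
    have h2 := mul_le_mul_of_nonneg_left (Wt_le hm (r + 1)) (Zt_nonneg s (r + 1))
    have h3 := Zt_rec (s := s) (t := r) (by omega)
    have h4 := Zt_ge (s := s) (t := r + 1) (by omega)
    have h5 := K_ge (ι := ι) (r + 1)
    have h6 : (r : ℝ) + 6 ≤ s := by exact_mod_cast (by omega : r + 6 ≤ s)
    have hZ := Zt_nonneg s (r + 1)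
    push_cast at h2 h4 h5 ⊢
    rw [show r + 1 + 1 = r + 2 from rfl] at h2 h5 ⊢
    have hr0 : (0 : ℝ) ≤ r := Nat.cast_nonneg r
    -- `7 (r + 1) Z r ≤ M Z (r + 1)`
    have h7 : 7 * (((r : ℝ) + 1) * Zt s r) ≤ 2 * Fintype.card ι * Zt s (r + 1) := by
      rw [h3]
      have h8 : (s : ℝ) ≤ s / 4 * Zt s (r + 1) := by
        have : (4 : ℝ) ≤ Zt s (r + 1) := by linarith
        nlinarith
      have h9 : ((s : ℝ) + r + 1) / 2 * Zt s (r + 1) ≤ (s - 5 / 2) * Zt s (r + 1) :=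
        mul_le_mul_of_nonneg_right (by linarith) hZ
      have h10 : 35 / 4 * (s : ℝ) * Zt s (r + 1) ≤ 2 * Fintype.card ι * Zt s (r + 1) :=
        mul_le_mul_of_nonneg_right (by linarith) hZ
      nlinarith
    have h8 : 0 ≤ (2 * (Fintype.card ι : ℝ) - 1) := by linarith
    have h9 : 7 * (Zt s r * ((2 * Fintype.card ι - 1) * (r + 1) * Kn ι (r + 1))) ≤
        Zt s (r + 1) * ((2 * Fintype.card ι - 1) * (r + 2) * Kn ι (r + 2)) := by
      have e1 : 7 * (Zt s r * ((2 * Fintype.card ι - 1) * (r + 1) * Kn ι (r + 1))) =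
          (2 * Fintype.card ι - 1) * (7 * (((r : ℝ) + 1) * Zt s r)) * Kn ι (r + 1) := by ring
      have e2 : Zt s (r + 1) * ((2 * Fintype.card ι - 1) * (r + 2) * Kn ι (r + 2)) =
          (2 * Fintype.card ι - 1) * Zt s (r + 1) * ((r + 1 + 1) * Kn ι (r + 2)) := by ring
      rw [e1, e2]
      calc (2 * (Fintype.card ι : ℝ) - 1) * (7 * (((r : ℝ) + 1) * Zt s r)) * Kn ι (r + 1)
          ≤ (2 * (Fintype.card ι : ℝ) - 1) * (2 * Fintype.card ι * Zt s (r + 1)) *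
            Kn ι (r + 1) :=
            mul_le_mul_of_nonneg_right (mul_le_mul_of_nonneg_left h7 h8) (Kn_nonneg _)
        _ = (2 * (Fintype.card ι : ℝ) - 1) * Zt s (r + 1) *
            (2 * Fintype.card ι * Kn ι (r + 1)) := by ring
        _ ≤ (2 * (Fintype.card ι : ℝ) - 1) * Zt s (r + 1) * ((r + 1 + 1) * Kn ι (r + 2)) :=
            mul_le_mul_of_nonneg_left h5 (mul_nonneg h8 hZ)
    have e3 : ((r : ℝ) + 1 + 1) = r + 2 := by ring
    rw [e3] at h2 ⊢
    linarith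

/-- the exceptional terms -/
theorem extra (n : ℕ) (hn : (n : ℝ) + 2 ≤ Fintype.card ι) :
    2 ^ (n + 5) * (2 * (Fintype.card ι : ℝ)) ^ 2 ≤ 64 * Kn ι (n + 2) := by
  induction n with
  | zero =>
    have h1 := K_rec (ι := ι) 0
    rw [Kn_one] at h1
    push_cast at h1
    rw [zero_add, zero_add]
    norm_num at h1 ⊢
    nlinarith
  | succ n ih =>
    push_cast at hn
    have h1 := ih (by linarith)
    have h2 := K_ge (ι := ι) (n + 2)
    push_cast at h2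
    rw [show n + 2 + 1 = n + 3 from rfl] at h2
    rw [show n + 1 + 2 = n + 3 from rfl]
    have h3 := Kn_nonneg (ι := ι) (n + 2)
    have h4 : 2 * Kn ι (n + 2) ≤ Kn ι (n + 3) := by
      have h5 : ((n : ℝ) + 2 + 1) * (2 * Kn ι (n + 2)) ≤ (n + 2 + 1) * Kn ι (n + 3) := by
        refine le_trans ?_ h2
        have hn0 : (0 : ℝ) ≤ n := Nat.cast_nonneg n
        nlinarith
      exact le_of_mul_le_mul_left h5 (by positivity)
    have e : (2 : ℝ) ^ (n + 1 + 5) = 2 * 2 ^ (n + 5) := by ring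
    rw [e]
    linarith

/-- the coefficients of the top levels, `s = n + 5` -/
theorem Z3 (n : ℕ) : Zt (n + 5) (n + 3) = (n + 5) / (n + 4) := by
  have h1 := Zt_rec (s := n + 5) (t := n + 3) (by omega)
  have h2 := Zt_last (s := n + 5) (by omega)
  rw [show n + 5 - 1 = n + 3 + 1 from rfl] at h2
  rw [h2] at h1
  push_cast at h1
  rw [eq_div_iff (by positivity)]
  linarith

theorem Z2 (n : ℕ) : Zt (n + 5) (n + 2) = 2 * (n + 5) / (n + 3) := by
  have h1 := Zt_rec (s := n + 5) (t := n + 2) (by omega)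
  rw [show n + 2 + 1 = n + 3 from rfl, Z3] at h1
  push_cast at h1
  have h2 : ((n : ℝ) + 5 + (n + 2) + 1) / 2 * ((n + 5) / (n + 4)) = n + 5 := by
    field_simp
    ring
  rw [h2] at h1
  rw [eq_div_iff (by positivity)]
  linarith

theorem Z1 (n : ℕ) : Zt (n + 5) (n + 1) = (n + 5) * (3 * n + 10) / ((n + 3) * (n + 2)) := by
  have h1 := Zt_rec (s := n + 5) (t := n + 1) (by omega)
  rw [show n + 1 + 1 = n + 2 from rfl, Z2] at h1
  push_cast at h1
  have h2 : ((n : ℝ) + 2) ≠ 0 := by positivity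
  have h3 : ((n : ℝ) + 3) ≠ 0 := by positivity
  have h4 : Zt (n + 5) (n + 1) = (((n : ℝ) + 5 + (n + 1) + 1) / 2 * (2 * (n + 5) / (n + 3)) +
      (n + 5)) / (n + 2) := by
    rw [eq_div_iff h2, ← h1]
    ring
  rw [h4]
  field_simp
  ring

theorem Z0 (n : ℕ) : Zt (n + 5) n * (n + 1) = 4 * (n + 5) * (n + 3) / (n + 2) := by
  have h1 := Zt_rec (s := n + 5) (t := n) (by omega)
  rw [Z1] at h1
  push_cast at h1
  have h2 : ((n : ℝ) + 2) ≠ 0 := by positivity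
  have h3 : ((n : ℝ) + 3) ≠ 0 := by positivity
  rw [mul_comm, h1]
  field_simp
  ring

/-- the classes `2, ..., s`, for `s = n + 5` -/
theorem y2_fin {n : ℕ} {ev : (ι → ℤ) →+ G} (h : PC (n + 5) ev) {β : ℤ}
    (hm : ((n : ℤ) + 6) ∣ (2 * Fintype.card ι - β)) (hβ : 1 ≤ β) (hβ' : β ≤ n + 4)
    (hM : (3 ≤ n ∧ ((n : ℝ) + 5) ^ 2 + 2 * (n + 5) - 6 ≤ 2 * Fintype.card ι) ∨
      (n ≤ 2 ∧ ((n : ℝ) + 5) ^ 2 + 3 * (n + 5) + 4 ≤ 2 * Fintype.card ι)) : False := by
  have hn0 : (0 : ℝ) ≤ n := Nat.cast_nonneg n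
  have hM1 : 35 * ((n : ℝ) + 5) ≤ 4 * (2 * Fintype.card ι) := by
    rcases hM with ⟨h1, h2⟩ | ⟨h1, h2⟩
    · have h3 : (3 : ℝ) ≤ n := by exact_mod_cast h1
      nlinarith
    · have h3 : (n : ℝ) ≤ 2 := by exact_mod_cast h1
      nlinarith
  have hmr : (n : ℝ) + 2 ≤ Fintype.card ι := by linarith
  have hm1 : 1 ≤ Fintype.card ι := by
    have : (1 : ℝ) ≤ Fintype.card ι := by linarith
    exact_mod_cast this
  have hm1' : (1 : ℝ) ≤ Fintype.card ι := by exact_mod_cast hm1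
  have k1 := y2K (n := n + 4) (β := β) h (by push_cast; convert hm using 1; ring)
  rw [sum_cc, sum_range_succ, sum_range_succ, sum_range_succ] at k1
  have k2 := tail hm1 (s := n + 5) (by push_cast; linarith) n le_rfl
  have k3 := extra n hmr
  have k4 : (2 ^ (n + 4 + 1) - 1) * Wt ι 0 ≤ 64 * Kn ι (n + 2) := by
    refine le_trans ?_ k3
    rw [Wt_zero, Kn_one, show n + 4 + 1 = n + 5 from rfl]
    have h1 : (1 : ℝ) ≤ 2 ^ (n + 5) := one_le_pow₀ (by norm_num)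
    have h2 : (0 : ℝ) ≤ 2 ^ (n + 5) := by positivity
    have h3 : (2 * (Fintype.card ι : ℝ) - 1) * (2 * Fintype.card ι) ≤
        (2 * (Fintype.card ι : ℝ)) ^ 2 := by nlinarith
    have h4 : 0 ≤ (2 * (Fintype.card ι : ℝ) - 1) * (2 * Fintype.card ι) := by nlinarith
    calc ((2 : ℝ) ^ (n + 5) - 1) * ((2 * (Fintype.card ι : ℝ) - 1) * (2 * Fintype.card ι))
        ≤ 2 ^ (n + 5) * ((2 * (Fintype.card ι : ℝ) - 1) * (2 * Fintype.card ι)) :=
          mul_le_mul_of_nonneg_right (by linarith) h4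
      _ ≤ 2 ^ (n + 5) * (2 * (Fintype.card ι : ℝ)) ^ 2 := mul_le_mul_of_nonneg_left h3 h2
  rw [show n + 4 + 1 = n + 5 from rfl] at k1
  rw [Z3, Z2, Z1, Wt_succ (n + 2), Wt_succ (n + 1), Wt_succ n,
    show n + 2 + 2 = n + 4 from rfl, show n + 2 + 1 = n + 3 from rfl,
    show n + 1 + 2 = n + 3 from rfl, show n + 1 + 1 = n + 2 from rfl] at k1
  have r3 := K_rec (ι := ι) (n + 1)
  have r4 := K_rec (ι := ι) (n + 2)
  have r5 := K_rec (ι := ι) (n + 3)
  rw [show n + 1 + 2 = n + 3 from rfl, show n + 1 + 1 = n + 2 from rfl] at r3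
  rw [show n + 2 + 2 = n + 4 from rfl, show n + 2 + 1 = n + 3 from rfl] at r4
  rw [show n + 3 + 2 = n + 5 from rfl, show n + 3 + 1 = n + 4 from rfl] at r5
  have g := K_ge (ι := ι) (n + 1)
  rw [show n + 1 + 1 = n + 2 from rfl] at g
  push_cast at k1 k2 r3 r4 r5 g
  have hβr : (1 : ℝ) ≤ β := by exact_mod_cast hβ
  have hβr' : (β : ℝ) ≤ n + 4 := by exact_mod_cast hβ'
  have final := RF_neg n (2 * Fintype.card ι) β (Kn ι (n + 2)) (Kn ι (n + 1)) (Kn ι (n + 3))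
    (Kn ι (n + 4)) (Kn ι (n + 5)) hM (by linarith) (by linarith) (by linarith) (Kn_pos hm1 _)
    (Kn_nonneg _) (by linarith) hβr hβr'
  have z0 := Z0 n
  have q1 : (β : ℝ) * (β - (n + 4 + 2)) * Kn ι (n + 5) ≤ -(β + n + 4) * Kn ι (n + 5) := by
    refine mul_le_mul_of_nonneg_right ?_ (Kn_nonneg _)
    nlinarith [mul_nonneg (sub_nonneg.2 hβr) (sub_nonneg.2 hβr')]
  have q2 : 7 / 6 * (Zt (n + 5) n * ((2 * Fintype.card ι - 1) * (n + 1) * Kn ι (n + 1))) =
      7 / 6 * (4 * (n + 5) * (n + 3) / (n + 2)) * (2 * Fintype.card ι - 1) * Kn ι (n + 1) := by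
    rw [← z0]
    ring
  rw [q2] at k2
  have q3 : ((n : ℝ) + 5) * (3 * n + 10) / ((n + 3) * (n + 2)) * (n * Kn ι n) ≥ 0 := by
    have := Kn_nonneg (ι := ι) n
    positivity
  unfold RF at final
  linarith

end

end Pool.Agent.H23.GF
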