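import Pool.Agent.H23.GF.Fin
import Pool.Agent.H71.GW.Main
import Pool.Agent.H71.GW.Odd
import Pool.Agent.H21.GS.Small
import Pool.Agent.H28.GR.Reg

/-!
# The lattice Golomb-Welch theorem: assembly
-/

set_option autoImplicit false

open Finset Pool.Agent.H23.GW Pool.Agent.H23.GC
open scoped Classical

namespace Pool.Agent.H23.GF

variable {ι : Type} [Fintype ι] {G : Type} [AddCommGroup G]

/-- the second moment theorem with remainders -/
theorem y2_class {s : ℕ} {ev : (ι → ℤ) →+ G} (h : PC s ev) (hs : 8 ≤ s)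
    (hM : s ^ 2 + 2 * s ≤ 2 * Fintype.card ι + 6) (h0 : (2 * Fintype.card ι) % (s + 1) ≠ 0)
    (h1 : (2 * Fintype.card ι + 1) % (s + 1) ≠ 0) : False := by
  obtain ⟨n, rfl⟩ : ∃ n, s = n + 5 := ⟨s - 5, by omega⟩
  have hq : (2 * Fintype.card ι) % (n + 5 + 1) < n + 5 + 1 := Nat.mod_lt _ (by omega)
  have hq2 : (2 * Fintype.card ι) % (n + 5 + 1) ≠ n + 5 := by
    intro h2
    apply h1
    rw [Nat.add_mod, h2]
    by_cases h3 : n + 5 + 1 = 1
    · omega
    · rw [Nat.mod_eq_of_lt (show 1 < n + 5 + 1 by omega)]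
      exact Nat.mod_self _
  refine y2_fin h (β := (((2 * Fintype.card ι) % (n + 5 + 1) : ℕ) : ℤ)) ?_ (by omega) (by omega)
    (Or.inl ⟨by omega, ?_⟩)
  · have h3 := Nat.mod_add_div (2 * Fintype.card ι) (n + 5 + 1)
    refine ⟨((2 * Fintype.card ι / (n + 5 + 1) : ℕ) : ℤ), ?_⟩
    have h4 : (2 * (Fintype.card ι : ℤ)) = (((2 * Fintype.card ι) % (n + 5 + 1) +
        (n + 5 + 1) * (2 * Fintype.card ι / (n + 5 + 1)) : ℕ) : ℤ) := by
      rw [h3]
      push_cast
      ring
    rw [h4]
    push_cast
    ring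
  · have h3 : (((n + 5) ^ 2 + 2 * (n + 5) : ℕ) : ℝ) ≤ ((2 * Fintype.card ι + 6 : ℕ) : ℝ) := by
      exact_mod_cast hM
    push_cast at h3
    linarith

/-- what the region of small size gives -/
def Reg (s m : ℕ) : Prop :=
  (s ≤ 7 ∧ 2 * m ≤ (s + 1) * (s + 2)) ∨ (s = 8 ∧ (m ≤ 36 ∨ m = 40 ∨ m = 45)) ∨
    (s = 9 ∧ (m ≤ 46 ∨ m = 50)) ∨ (s = 10 ∧ (m ≤ 56 ∨ m = 60)) ∨ (s = 11 ∧ m ≤ 68) ∨
    (12 ≤ s ∧ 2 * m + 6 ≤ s ^ 2 + 2 * s)

theorem no_large {s : ℕ} {ev : (ι → ℤ) →+ G} (h : PC s ev) (hs : 3 ≤ s)
    (hR : Reg s (Fintype.card ι) → False) : False := by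
  have hE := Pool.Agent.H71.GW.Odd.ec h (by omega)
  set m := Fintype.card ι with hm
  unfold Reg at hR
  rcases Nat.lt_or_ge s 9 with h9 | h9
  · by_cases h1 : (s + 1) * (s + 2) / 2 < m
    · exact Pool.Agent.H21.GS.small h (fun _ => hE) hs (by omega) h1
    · rcases Nat.lt_or_ge s 8 with h8 | h8
      · refine hR (Or.inl ⟨by omega, ?_⟩)
        have h2 : 2 ∣ (s + 1) * (s + 2) := (Nat.even_mul_succ_self (s + 1)).two_dvd
        omega
      · have h88 : s = 8 := by omega
        subst h88
        have h2 : ¬ (m ≤ 36 ∨ m = 40 ∨ m = 45) := fun h3 => hR (Or.inr (Or.inl ⟨rfl, h3⟩))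
        push Not at h2
        norm_num at h1
        refine y2_class h (by norm_num) ?_ ?_ ?_
        · rw [← hm]
          omega
        · rw [← hm]
          omega
        · rw [← hm]
          omega
  · obtain ⟨hc0, hc1⟩ := Pool.Agent.H71.GW.main01 ι G s ev h (by omega)
    rw [← hm] at hc0 hc1
    have hlow : s ^ 2 + 2 * s ≤ 2 * m + 6 := by
      rcases Nat.lt_or_ge s 12 with h12 | h12
      · have hcase : s = 9 ∨ s = 10 ∨ s = 11 := by omega
        rcases hcase with rfl | rfl | rfl
        · by_contra h1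
          exact hR (Or.inr (Or.inr (Or.inl ⟨rfl, Or.inl (by omega)⟩)))
        · by_contra h1
          exact hR (Or.inr (Or.inr (Or.inr (Or.inl ⟨rfl, Or.inl (by omega)⟩))))
        · by_contra h1
          exact hR (Or.inr (Or.inr (Or.inr (Or.inr (Or.inl ⟨rfl, by omega⟩)))))
      · by_contra h1
        exact hR (Or.inr (Or.inr (Or.inr (Or.inr (Or.inr ⟨h12, by omega⟩)))))
    have hne : 12 ≤ s → s ^ 2 + 2 * s < 2 * m + 6 := by
      intro h12
      by_contra h1
      exact hR (Or.inr (Or.inr (Or.inr (Or.inr (Or.inr ⟨h12, by omega⟩)))))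
    refine y2_class h (by omega) (by rw [← hm]; exact hlow) ?_ ?_
    · rw [← hm]
      intro h1
      have h2 := hc0 h1
      rcases Nat.lt_or_ge s 12 with h12 | h12
      · have hcase : s = 9 ∨ s = 10 ∨ s = 11 := by omega
        rcases hcase with rfl | rfl | rfl
        · have h3 : ¬ (m ≤ 46 ∨ m = 50) := fun h3 => hR (Or.inr (Or.inr (Or.inl ⟨rfl, h3⟩)))
          push Not at h3
          norm_num at h2
          omega
        · have h3 : ¬ (m ≤ 56 ∨ m = 60) :=
            fun h3 => hR (Or.inr (Or.inr (Or.inr (Or.inl ⟨rfl, h3⟩))))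
          push Not at h3
          norm_num at h2
          omega
        · norm_num at h2
          omega
      · have h3 := hne h12
        rw [if_neg (by omega), if_neg (by omega)] at h2
        obtain ⟨k, hk⟩ := Nat.dvd_of_mod_eq_zero h1
        rw [hk] at h2 h3
        have h4 : k < s + 1 := by
          by_contra h5
          push Not at h5
          nlinarith
        have h5 : s < k := by
          by_contra h5
          push Not at h5
          nlinarith
        omega
    · rw [← hm]
      intro h1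
      rcases Nat.lt_or_ge s 12 with h12 | h12
      · have hcase : s = 9 ∨ s = 10 ∨ s = 11 := by omega
        rcases hcase with rfl | rfl | rfl
        · omega
        · have h2 := hc1 h1 (by omega)
          have h3 : ¬ (m ≤ 56 ∨ m = 60) :=
            fun h3 => hR (Or.inr (Or.inr (Or.inr (Or.inl ⟨rfl, h3⟩))))
          push Not at h3
          norm_num at h2
          omega
        · omega
      · have h2 := hc1 h1 (by omega)
        have h3 := hne h12
        rw [if_neg (by omega)] at h2
        obtain ⟨k, hk⟩ := Nat.dvd_of_mod_eq_zero h1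
        have h4 : k < s + 1 := by
          by_contra h5
          push Not at h5
          nlinarith
        have h5 : s < k := by
          by_contra h5
          push Not at h5
          nlinarith
        omega

/-- (Golomb-Welch, lattice case) no perfect codes of radius at least three in dimension at least
three -/
theorem none {s : ℕ} {ev : (ι → ℤ) →+ G} (h : PC s ev) (hs : 3 ≤ s)
    (hm : 3 ≤ Fintype.card ι) : False := by
  refine no_large h hs fun hR => Pool.Agent.H28.GR.reg h hm ?_
  rcases hR with ⟨h1, h2⟩ | h1 | h1 | h1 | h1 | h1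
  · have hcase : s = 3 ∨ s = 4 ∨ s = 5 ∨ s = 6 ∨ s = 7 := by omega
    rcases hcase with rfl | rfl | rfl | rfl | rfl <;> omega
  · omega
  · omega
  · omega
  · omega
  · right; right; right; right; right; right; right; right; right
    exact h1

end Pool.Agent.H23.GF
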