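import Pool.Agent.H23.GF.Nat

/-!
# Rank numbers of products of chains

`#(sv a n)` is symmetric, unimodal, and `n #(sv a n) ≤ (|a| - n + 1) #(sv a (n - 1))` in the lower
half.
-/

set_option autoImplicit false

open Finset Polynomial
open scoped Classical

namespace Pool.Agent.H23.GF

noncomputable section

/-- symmetric and unimodal with centre `N / 2` -/
def SU (φ : ℤ → ℤ) (N : ℤ) : Prop :=
  (∀ n, φ (N - n) = φ n) ∧ ∀ n, 2 * n + 1 ≤ N → φ n ≤ φ (n + 1)

theorem SU.mono {φ : ℤ → ℤ} {N : ℤ} (h : SU φ N) {p q : ℤ} (h1 : p ≤ q) (h2 : p + q ≤ N) :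
    φ p ≤ φ q := by
  have key : ∀ (k : ℕ) (p : ℤ), 2 * p + k ≤ N → 2 * (p + k) ≤ N + 1 → φ p ≤ φ (p + k) := by
    intro k
    induction k with
    | zero => intro p _ _; simp
    | succ k ih =>
      intro p h3 h4
      push_cast at h3 h4
      have h5 := ih p (by linarith) (by linarith)
      have h6 := h.2 (p + k) (by linarith)
      have h7 : p + ((k + 1 : ℕ) : ℤ) = p + k + 1 := by push_cast; ring
      rw [h7]
      exact h5.trans h6
  by_cases h3 : 2 * q ≤ N + 1
  · have h4 := key (q - p).toNat p (by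
      rw [Int.toNat_of_nonneg (by linarith)]; linarith) (by
      rw [Int.toNat_of_nonneg (by linarith)]; linarith)
    rw [Int.toNat_of_nonneg (by linarith)] at h4
    simpa using h4
  · have h4 := key (N - q - p).toNat p (by
      rw [Int.toNat_of_nonneg (by linarith)]; linarith) (by
      rw [Int.toNat_of_nonneg (by linarith)]; linarith)
    rw [Int.toNat_of_nonneg (by linarith)] at h4
    have h5 : p + (N - q - p) = N - q := by ring
    rw [h5, h.1] at h4
    exact h4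

theorem SU.chain {φ : ℤ → ℤ} {N : ℤ} (h : SU φ N) (k : ℕ) :
    SU (fun n => ∑ x ∈ range (k + 1), φ (n - x)) (N + k) := by
  constructor
  · intro n
    show ∑ x ∈ range (k + 1), φ (N + k - n - x) = ∑ x ∈ range (k + 1), φ (n - x)
    rw [← sum_range_reflect]
    refine sum_congr rfl fun x hx => ?_
    rw [mem_range] at hx
    rw [← h.1 (n - x)]
    congr 1
    have : ((k + 1 - 1 - x : ℕ) : ℤ) = k - x := by omega
    rw [this]
    ring
  · intro n hn
    show ∑ x ∈ range (k + 1), φ (n - x) ≤ ∑ x ∈ range (k + 1), φ (n + 1 - x)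
    rw [sum_range_succ, sum_range_succ' (fun x => φ (n + 1 - (x : ℕ)))]
    have h1 : ∀ x : ℕ, n + 1 - ((x + 1 : ℕ) : ℤ) = n - x := by
      intro x
      push_cast
      ring
    simp only [h1]
    have h2 : φ (n - k) ≤ φ (n + 1 - ((0 : ℕ) : ℤ)) := by
      push_cast
      rw [sub_zero]
      exact h.mono (by linarith [(Nat.cast_nonneg k : (0 : ℤ) ≤ k)]) (by linarith)
    linarith

/-- the coefficient function on the integers -/
def cf (P : ℤ[X]) (n : ℤ) : ℤ := if 0 ≤ n then P.coeff n.toNat else 0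

theorem cf_mul_X_pow (P : ℤ[X]) (x : ℕ) (n : ℤ) : cf (P * X ^ x) n = cf P (n - x) := by
  unfold cf
  by_cases h : 0 ≤ n
  · rw [if_pos h, coeff_mul_X_pow']
    by_cases h1 : 0 ≤ n - x
    · rw [if_pos h1, if_pos (by omega)]
      congr 1
      omega
    · rw [if_neg h1, if_neg (by omega)]
  · rw [if_neg h, if_neg (by omega)]

theorem cf_add (P Q : ℤ[X]) (n : ℤ) : cf (P + Q) n = cf P n + cf Q n := by
  unfold cf
  split_ifs <;> simp

theorem cf_sum {κ : Type*} (T : Finset κ) (P : κ → ℤ[X]) (n : ℤ) :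
    cf (∑ j ∈ T, P j) n = ∑ j ∈ T, cf (P j) n := by
  unfold cf
  split_ifs with h
  · rw [finsetSum_coeff]
  · simp

theorem cf_C_mul (c : ℤ) (P : ℤ[X]) (n : ℤ) : cf (C c * P) n = c * cf P n := by
  unfold cf
  split_ifs <;> simp

theorem cf_nonneg_nat (P : ℤ[X]) (n : ℕ) : cf P n = P.coeff n := by
  unfold cf
  simp

/-- `1 + X + ... + X ^ k` -/
def gp (k : ℕ) : ℤ[X] := ∑ x ∈ range (k + 1), X ^ x

theorem cf_mul_gp (P : ℤ[X]) (k : ℕ) (n : ℤ) :
    cf (P * gp k) n = ∑ x ∈ range (k + 1), cf P (n - x) := by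
  unfold gp
  rw [mul_sum, cf_sum]
  exact sum_congr rfl fun x _ => cf_mul_X_pow P x n

theorem X_mul_derivative_gp (k : ℕ) :
    X * derivative (gp k) = ∑ x ∈ range (k + 1), C (x : ℤ) * X ^ x := by
  unfold gp
  rw [derivative_sum, mul_sum]
  refine sum_congr rfl fun x _ => ?_
  rcases x with _ | x
  · simp
  · rw [derivative_X_pow]
    simp only [Nat.add_sub_cancel, map_natCast]
    ring

theorem cf_X_derivative (P : ℤ[X]) (n : ℤ) : cf (X * derivative P) n = n * cf P n := by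
  unfold cf
  by_cases h : 0 ≤ n
  · rw [if_pos h, if_pos h]
    obtain ⟨k, rfl⟩ := Int.eq_ofNat_of_zero_le h
    simp only [Int.toNat_natCast]
    rcases k with _ | k
    · simp
    · rw [coeff_X_mul, coeff_derivative]
      push_cast
      ring
  · rw [if_neg h, if_neg h, mul_zero]

variable {κ : Type*} [DecidableEq κ]

theorem SU_prod (u : κ → ℕ) (T : Finset κ) :
    SU (cf (∏ j ∈ T, gp (u j))) ((∑ j ∈ T, u j : ℕ) : ℤ) := by
  induction T using Finset.induction_on with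
  | empty =>
    rw [prod_empty, sum_empty]
    have h1 : ∀ n : ℤ, cf 1 n = if n = 0 then 1 else 0 := by
      intro n
      unfold cf
      by_cases h : 0 ≤ n
      · rw [if_pos h, coeff_one]
        by_cases h2 : n = 0
        · simp [h2]
        · rw [if_neg h2, if_neg (by omega)]
      · rw [if_neg h, if_neg (by omega)]
    constructor
    · intro n
      rw [h1, h1]
      by_cases h2 : n = 0
      · simp [h2]
      · rw [if_neg h2, if_neg (by push_cast; omega)]
    · intro n hn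
      push_cast at hn
      rw [h1, h1, if_neg (by omega)]
      split_ifs <;> norm_num
  | insert j T hj ih =>
    rw [prod_insert hj, sum_insert hj, mul_comm]
    have h1 := ih.chain (u j)
    have h2 : cf ((∏ j ∈ T, gp (u j)) * gp (u j)) =
        fun n => ∑ x ∈ range (u j + 1), cf (∏ j ∈ T, gp (u j)) (n - x) :=
      funext fun n => cf_mul_gp _ _ n
    rw [h2]
    have h3 : ((u j + ∑ j ∈ T, u j : ℕ) : ℤ) = ((∑ j ∈ T, u j : ℕ) : ℤ) + u j := by
      push_cast
      ring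
    rw [h3]
    exact h1

theorem SU.anti {φ : ℤ → ℤ} {M : ℤ} (h : SU φ M) (k : ℕ) (n : ℤ) (hn : 2 * n - 1 ≤ M + (k + 1)) :
    0 ≤ ∑ x ∈ range (k + 1), ((k : ℤ) - 2 * x) * φ (n - 1 - x) := by
  have h1 : ∑ x ∈ range (k + 1), ((k : ℤ) - 2 * x) * φ (n - 1 - x) =
      ∑ x ∈ range (k + 1), (2 * (x : ℤ) - k) * φ (n - 1 - k + x) := by
    rw [← sum_range_reflect]
    refine sum_congr rfl fun x hx => ?_
    rw [mem_range] at hx
    have : ((k + 1 - 1 - x : ℕ) : ℤ) = k - x := by omega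
    rw [this]
    congr 1
    · ring
    · congr 1
      ring
  have h2 : 0 ≤ ∑ x ∈ range (k + 1), (((k : ℤ) - 2 * x) * φ (n - 1 - x) +
      (2 * (x : ℤ) - k) * φ (n - 1 - k + x)) := by
    refine sum_nonneg fun x _ => ?_
    have h3 : ((k : ℤ) - 2 * x) * φ (n - 1 - x) + (2 * (x : ℤ) - k) * φ (n - 1 - k + x) =
        ((k : ℤ) - 2 * x) * (φ (n - 1 - x) - φ (n - 1 - k + x)) := by ring
    rw [h3]
    rcases le_total 0 ((k : ℤ) - 2 * x) with h4 | h4
    · refine mul_nonneg h4 ?_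
      rw [sub_nonneg]
      exact h.mono (by linarith) (by linarith)
    · refine mul_nonneg_of_nonpos_of_nonpos h4 ?_
      rw [sub_nonpos]
      exact h.mono (by linarith) (by linarith)
  rw [sum_add_distrib, ← h1] at h2
  linarith

/-- Lemma A for polynomials. -/
theorem cf_ratio (u : κ → ℕ) (T : Finset κ) (n : ℤ)
    (hn : 2 * n - 1 ≤ ((∑ j ∈ T, u j : ℕ) : ℤ)) :
    n * cf (∏ j ∈ T, gp (u j)) n ≤
      (((∑ j ∈ T, u j : ℕ) : ℤ) - n + 1) * cf (∏ j ∈ T, gp (u j)) (n - 1) := by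
  set P := ∏ j ∈ T, gp (u j) with hP
  have h1 : ∀ j ∈ T, P = (∏ i ∈ T.erase j, gp (u i)) * gp (u j) := by
    intro j hj
    rw [hP, mul_comm, mul_prod_erase T (fun j => gp (u j)) hj]
  have h2 : ∀ k : ℤ, k * cf P k =
      ∑ j ∈ T, ∑ x ∈ range (u j + 1), (x : ℤ) * cf (∏ i ∈ T.erase j, gp (u i)) (k - x) := by
    intro k
    rw [← cf_X_derivative, hP, derivative_prod_finset, mul_sum, cf_sum]
    refine sum_congr rfl fun j hj => ?_
    have h3 : X * ((∏ i ∈ T.erase j, gp (u i)) * derivative (gp (u j))) =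
        (∏ i ∈ T.erase j, gp (u i)) * (X * derivative (gp (u j))) := by ring
    rw [h3, X_mul_derivative_gp, mul_sum, cf_sum]
    refine sum_congr rfl fun x _ => ?_
    have h4 : (∏ i ∈ T.erase j, gp (u i)) * (C (x : ℤ) * X ^ x) =
        C (x : ℤ) * ((∏ i ∈ T.erase j, gp (u i)) * X ^ x) := by ring
    rw [h4, cf_C_mul, cf_mul_X_pow]
  have h3 : ((∑ j ∈ T, u j : ℕ) : ℤ) * cf P (n - 1) =
      ∑ j ∈ T, ∑ x ∈ range (u j + 1), (u j : ℤ) * cf (∏ i ∈ T.erase j, gp (u i)) (n - 1 - x) := by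
    push_cast
    rw [sum_mul]
    refine sum_congr rfl fun j hj => ?_
    rw [← mul_sum, ← cf_mul_gp, ← h1 j hj]
  have h4 : (((∑ j ∈ T, u j : ℕ) : ℤ) - n + 1) * cf P (n - 1) - n * cf P n =
      ∑ j ∈ T, (∑ x ∈ range (u j + 1), ((u j : ℤ) - x) *
        cf (∏ i ∈ T.erase j, gp (u i)) (n - 1 - x) -
        ∑ x ∈ range (u j + 1), (x : ℤ) * cf (∏ i ∈ T.erase j, gp (u i)) (n - x)) := by
    rw [sum_sub_distrib, ← h2 n]
    congr 1
    have h5 : (((∑ j ∈ T, u j : ℕ) : ℤ) - n + 1) * cf P (n - 1) =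
        ((∑ j ∈ T, u j : ℕ) : ℤ) * cf P (n - 1) - (n - 1) * cf P (n - 1) := by ring
    rw [h5, h3, h2 (n - 1), ← sum_sub_distrib]
    refine sum_congr rfl fun j _ => ?_
    rw [← sum_sub_distrib]
    exact sum_congr rfl fun x _ => by ring
  rw [← sub_nonneg, h4]
  refine sum_nonneg fun j hj => ?_
  rcases Nat.eq_zero_or_pos (u j) with h5 | h5
  · simp [h5]
  · obtain ⟨k, hk⟩ : ∃ k, u j = k + 1 := ⟨u j - 1, by omega⟩
    have h6 := SU_prod u (T.erase j)
    have h7 := h6.anti k n (by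
      have h8 : (u j : ℤ) + ((∑ i ∈ T.erase j, u i : ℕ) : ℤ) = ((∑ j ∈ T, u j : ℕ) : ℤ) := by
        exact_mod_cast add_sum_erase T u hj
      rw [hk] at h8
      push_cast at h8 hn ⊢
      linarith)
    refine h7.trans (le_of_eq ?_)
    rw [hk, sum_range_succ (fun x => (((k + 1 : ℕ) : ℤ) - (x : ℕ)) *
      cf (∏ i ∈ T.erase j, gp (u i)) (n - 1 - (x : ℕ))) (k + 1), sum_range_succ' (fun x =>
      (x : ℤ) * cf (∏ i ∈ T.erase j, gp (u i)) (n - (x : ℕ)))]
    have h8 : (((k + 1 : ℕ) : ℤ) - ((k + 1 : ℕ) : ℤ)) = 0 := by ring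
    rw [h8]
    simp only [zero_mul, add_zero, Nat.cast_zero]
    rw [← sum_sub_distrib]
    refine sum_congr rfl fun x _ => ?_
    have h9 : n - ((x + 1 : ℕ) : ℤ) = n - 1 - x := by
      push_cast
      ring
    rw [h9]
    push_cast
    ring

end

end Pool.Agent.H23.GF
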