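import Pool.Agent.H23.GF.Count

/-!
# Kernel vectors with few odd entries, in groups of odd order
-/

set_option autoImplicit false

open Finset Pool.Agent.H23.GW Pool.Agent.H23.GC
open scoped Classical

namespace Pool.Agent.H23.GF

noncomputable section

variable {ι : Type} [Fintype ι] {G : Type} [AddCommGroup G]

/-- number of odd entries -/
def no (u : ι → ℕ) : ℕ := #{j | u j % 2 = 1}

/-- signs of the odd entries -/
def yo (z : ι → ℤ) : ι → ℤ := fun i => if z i % 2 = 0 then 0 else (z i).sign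

/-- half of the rest -/
def ch (z : ι → ℤ) : ι → ℤ := fun i => (z i - yo z i) / 2

theorem yo_cases (a : ℤ) : (a % 2 = 0 ∧ (if a % 2 = 0 then 0 else a.sign) = 0) ∨
    (a % 2 = 1 ∧ 0 < a ∧ (if a % 2 = 0 then 0 else a.sign) = 1) ∨
    (a % 2 = 1 ∧ a < 0 ∧ (if a % 2 = 0 then 0 else a.sign) = -1) := by
  rcases Int.emod_two_eq_zero_or_one a with h | h
  · left
    exact ⟨h, if_pos h⟩
  · right
    rcases lt_trichotomy a 0 with h1 | h1 | h1
    · right
      refine ⟨h, h1, ?_⟩
      rw [if_neg (by omega), Int.sign_eq_neg_one_of_neg h1]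
    · subst h1
      simp at h
    · left
      refine ⟨h, h1, ?_⟩
      rw [if_neg (by omega), Int.sign_eq_one_of_pos h1]

omit [Fintype ι] in
theorem two_ch (z : ι → ℤ) (i : ι) : 2 * ch z i + yo z i = z i := by
  unfold ch yo
  rcases yo_cases (z i) with ⟨h, h'⟩ | ⟨h, h1, h'⟩ | ⟨h, h1, h'⟩ <;> rw [h'] <;> omega

omit [Fintype ι] in
theorem abs_ch (z : ι → ℤ) (i : ι) :
    (z i).natAbs = 2 * (ch z i).natAbs + (yo z i).natAbs := by
  unfold ch yo
  rcases yo_cases (z i) with ⟨h, h'⟩ | ⟨h, h1, h'⟩ | ⟨h, h1, h'⟩ <;> rw [h'] <;> omega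

omit [Fintype ι] in
theorem abs_yo (z : ι → ℤ) (i : ι) : (yo z i).natAbs = (z i).natAbs % 2 := by
  unfold yo
  rcases yo_cases (z i) with ⟨h, h'⟩ | ⟨h, h1, h'⟩ | ⟨h, h1, h'⟩ <;> rw [h'] <;> omega

theorem nrm_ch (z : ι → ℤ) : nrm z = 2 * nrm (ch z) + nrm (yo z) := by
  unfold nrm
  rw [mul_sum, ← sum_add_distrib]
  exact sum_congr rfl fun i _ => abs_ch z i

theorem nrm_yo (z : ι → ℤ) : nrm (yo z) = no (ab z) := by
  unfold nrm no
  rw [card_filter]
  refine sum_congr rfl fun i _ => ?_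
  rw [abs_yo]
  show (z i).natAbs % 2 = if (z i).natAbs % 2 = 1 then 1 else 0
  split_ifs <;> omega

theorem ell_yo (z : ι → ℤ) : ell (yo z) = no (ab z) := by
  unfold ell no
  congr 1
  ext i
  simp only [mem_filter, mem_univ, true_and]
  have h1 := abs_yo z i
  show yo z i ≠ 0 ↔ (z i).natAbs % 2 = 1
  omega

theorem half {G : Type} [AddCommGroup G] [Fintype G] (hodd : Odd (Fintype.card G)) (g : G) :
    2 • (((Fintype.card G + 1) / 2) • g) = g := by
  obtain ⟨k, hk⟩ := hodd
  rw [← mul_smul]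
  have h1 : 2 * ((Fintype.card G + 1) / 2) = Fintype.card G + 1 := by omega
  rw [h1, add_smul, one_smul, card_nsmul_eq_zero, zero_add]

theorem two_inj {G : Type} [AddCommGroup G] [Fintype G] (hodd : Odd (Fintype.card G)) {g g' : G}
    (h : 2 • g = 2 • g') : g = g' := by
  rw [← half hodd g, ← half hodd g', smul_comm, h, smul_comm]

omit [Fintype ι] in
theorem ev_split (ev : (ι → ℤ) →+ G) (z : ι → ℤ) : ev z = 2 • ev (ch z) + ev (yo z) := by
  rw [← map_nsmul, ← map_add]
  congr 1
  funext i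
  rw [Pi.add_apply, Pi.smul_apply, ← two_ch z i]
  simp

theorem card_odd {s k : ℕ} {ev : (ι → ℤ) →+ G} [Fintype G] (hodd : Odd (Fintype.card G))
    (h : PC s ev) (hk : k = 1 ∨ k = 2) :
    #{z ∈ Lv ev (2 * s + k) | no (ab z) = k} = #{y ∈ Vn ι k | ell y = k} := by
  refine card_bij (fun z _ => yo z) ?_ ?_ ?_
  · intro z hz
    rw [mem_filter] at hz
    rw [mem_filter, mem_Vn, nrm_yo, ell_yo]
    exact ⟨hz.2, hz.2⟩
  · intro z hz z' hz' he
    rw [mem_filter, mem_Lv] at hz hz'
    have h1 := nrm_ch z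
    have h2 := nrm_ch z'
    rw [nrm_yo] at h1 h2
    have h3 := ev_split ev z
    have h4 := ev_split ev z'
    rw [hz.1.2] at h3
    rw [hz'.1.2] at h4
    have h5 : ev (ch z) = ev (ch z') := by
      refine two_inj hodd ?_
      have h6 : 2 • ev (ch z) = - ev (yo z) := eq_neg_of_add_eq_zero_left h3.symm
      have h7 : 2 • ev (ch z') = - ev (yo z') := eq_neg_of_add_eq_zero_left h4.symm
      have he' : yo z = yo z' := he
      rw [h6, h7, he']
    have h6 : ch z = ch z' :=
      (h (ev (ch z))).unique ⟨by omega, rfl⟩ ⟨by omega, h5.symm⟩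
    funext i
    have he' : yo z = yo z' := he
    rw [← two_ch z i, ← two_ch z' i, h6, he']
  · intro y hy
    rw [mem_filter, mem_Vn] at hy
    obtain ⟨hy1, hy2⟩ := hy
    have hyi : ∀ i, (y i).natAbs ≤ 1 := by
      have h1 := dft_add_ell y
      have h2 : dft y = 0 := by omega
      rw [dft_eq] at h2
      unfold dN at h2
      rw [sum_eq_zero_iff] at h2
      intro i
      have := h2 i (mem_univ i)
      unfold ab at this
      omega
    obtain ⟨c, ⟨hc1, hc2⟩, -⟩ := h (-(((Fintype.card G + 1) / 2) • ev y))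
    set z : ι → ℤ := fun i => 2 * c i + y i with hz
    have hev : ev z = 0 := by
      have h1 : z = 2 • c + y := by
        funext i
        rw [Pi.add_apply, Pi.smul_apply]
        simp [hz]
      rw [h1, map_add, map_nsmul, hc2, smul_neg, half hodd, neg_add_cancel]
    have hle : ∀ i, (z i).natAbs ≤ 2 * (c i).natAbs + (y i).natAbs := by
      intro i
      show (2 * c i + y i).natAbs ≤ _
      omega
    have hsum : nrm z ≤ 2 * nrm c + nrm y := by
      unfold nrm
      rw [mul_sum, ← sum_add_distrib]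
      exact sum_le_sum fun i _ => hle i
    have hno : no (ab z) = k := by
      rw [← hy2]
      unfold no ell
      congr 1
      ext i
      simp only [mem_filter, mem_univ, true_and]
      show (2 * c i + y i).natAbs % 2 = 1 ↔ y i ≠ 0
      have := hyi i
      omega
    have hne : z ≠ 0 := by
      intro h1
      rw [h1] at hno
      unfold no ab at hno
      simp at hno
      omega
    have hbig : 2 * s < nrm z := by
      by_contra h1
      exact hne ((Pool.Agent.H2.GC.l ι G s ev h).1 z hev (by omega))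
    have hpar : nrm z = 2 * nrm (ch z) + k := by
      have := nrm_ch z
      rwa [nrm_yo, hno] at this
    have hnz : nrm z = 2 * s + k := by
      rcases hk with rfl | rfl <;> omega
    have heq : ∀ i ∈ (univ : Finset ι), (z i).natAbs = 2 * (c i).natAbs + (y i).natAbs := by
      refine (sum_eq_sum_iff_of_le fun i _ => hle i).1 ?_
      have h1 : ∑ i, (z i).natAbs = 2 * s + k := hnz
      have h2 : ∑ i, (2 * (c i).natAbs + (y i).natAbs) = 2 * nrm c + nrm y := by
        rw [sum_add_distrib, ← mul_sum]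
        rfl
      have h3 : ∑ i, (z i).natAbs ≤ ∑ i, (2 * (c i).natAbs + (y i).natAbs) :=
        sum_le_sum fun i _ => hle i
      omega
    refine ⟨z, ?_, ?_⟩
    · rw [mem_filter, mem_Lv]
      exact ⟨⟨hnz, hev⟩, hno⟩
    · funext i
      have h1 := heq i (mem_univ i)
      have h2 := hyi i
      have h3 : z i = 2 * c i + y i := rfl
      show (if z i % 2 = 0 then 0 else (z i).sign) = y i
      rcases yo_cases (z i) with ⟨h4, h5⟩ | ⟨h4, h6, h5⟩ | ⟨h4, h6, h5⟩ <;> rw [h5] <;> omega

theorem card_V1 : #{y ∈ Vn ι 1 | ell y = 1} = 2 * Fintype.card ι := by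
  have h1 : ({y ∈ Vn ι 1 | ell y = 1} : Finset (ι → ℤ)) = Vn ι 1 := by
    refine filter_true_of_mem fun y hy => ?_
    rw [mem_Vn] at hy
    have h2 := ell_le_nrm y
    have h3 : ell y ≠ 0 := by
      intro h4
      unfold ell at h4
      rw [card_eq_zero, filter_eq_empty_iff] at h4
      have h5 : nrm y = 0 := by
        unfold nrm
        refine sum_eq_zero fun i _ => ?_
        have := h4 (mem_univ i)
        push Not at this
        simp [this]
      omega
    omega
  rw [h1]
  have h2 := Kn_one (ι := ι)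
  rw [Kn_card] at h2
  exact_mod_cast h2

theorem card_V2 :
    #{y ∈ Vn ι 2 | ell y = 2} = 2 * Fintype.card ι * (Fintype.card ι - 1) := by
  have h1 := Q_rec (ι := ι) 1
  rw [Qn_one, Pn_one, add_zero] at h1
  have h2 : Qn ι 2 = 2 * #{y ∈ Vn ι 2 | ell y = 2} := by
    have h3 := sum_Vn (ι := ι) 2 (fun u => (lN u : ℝ) * ((lN u : ℝ) - 1))
    unfold Qn
    rw [← h3, card_filter]
    push_cast
    rw [mul_sum]
    refine sum_congr rfl fun y hy => ?_
    rw [mem_Vn] at hy
    have h4 := ell_le_nrm y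
    rw [hy] at h4
    rw [← ell_eq]
    interval_cases h5 : ell y <;> norm_num
  have h3 : ((1 + 1 : ℕ)) = 2 := rfl
  rw [h3, h2] at h1
  rcases Nat.eq_zero_or_pos (Fintype.card ι) with h4 | h4
  · rw [h4] at h1 ⊢
    have h5 : (#{y ∈ Vn ι 2 | ell y = 2} : ℝ) = 0 := by
      push_cast at h1
      linarith
    have h6 : #{y ∈ Vn ι 2 | ell y = 2} = 0 := by exact_mod_cast h5
    rw [h6]
  · obtain ⟨m, hm⟩ : ∃ m, Fintype.card ι = m + 1 := ⟨Fintype.card ι - 1, by omega⟩
    rw [hm] at h1 ⊢
    rw [Nat.add_sub_cancel]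
    have h5 : (#{y ∈ Vn ι 2 | ell y = 2} : ℝ) = 2 * (m + 1) * m := by
      push_cast at h1
      linarith
    exact_mod_cast h5

/-- (E) the three counts -/
theorem odd_counts {s : ℕ} {ev : (ι → ℤ) →+ G} [Fintype G] (hodd : Odd (Fintype.card G))
    (h : PC s ev) (hs : 1 ≤ s) :
    #{z ∈ Lv ev (2 * s + 2) | no (ab z) = 0} = 0 ∧
    #{v ∈ Lv ev (2 * s + 1) | no (ab v) = 1} = 2 * Fintype.card ι ∧
    #{z ∈ Lv ev (2 * s + 2) | no (ab z) = 2} = 2 * Fintype.card ι * (Fintype.card ι - 1) := by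
  refine ⟨?_, ?_, ?_⟩
  · rw [card_eq_zero, filter_eq_empty_iff]
    intro z hz h0
    rw [mem_Lv] at hz
    have h1 := nrm_ch z
    rw [nrm_yo, h0] at h1
    have h2 := ev_split ev z
    have h3 : yo z = 0 := by
      funext i
      have h4 : nrm (yo z) = 0 := by rw [nrm_yo, h0]
      unfold nrm at h4
      rw [sum_eq_zero_iff] at h4
      have := h4 i (mem_univ i)
      simpa using this
    rw [h3, map_zero, add_zero, hz.2] at h2
    have h4 : ev (ch z) = 0 := two_inj hodd (by rw [← h2, smul_zero])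
    have h5 := (Pool.Agent.H2.GC.l ι G s ev h).1 (ch z) h4 (by omega)
    rw [h5, Pool.Agent.H2.GC.nrm_zero] at h1
    omega
  · rw [card_odd hodd h (Or.inl rfl), card_V1]
  · rw [card_odd hodd h (Or.inr rfl), card_V2]

end

end Pool.Agent.H23.GF
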