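import Pool.Agent.H23.GF.LemA

/-!
# Rank numbers: comparison with binomial coefficients
-/

set_option autoImplicit false

open Finset Polynomial
open scoped Classical

namespace Pool.Agent.H23.GF

noncomputable section

variable {κ : Type*} [DecidableEq κ]

theorem coeff_ratio (u : κ → ℕ) (T : Finset κ) {N n : ℕ} (hN : ∑ j ∈ T, u j = N)
    (hn : 2 * n + 1 ≤ N) :
    ((n : ℤ) + 1) * (∏ j ∈ T, gp (u j)).coeff (n + 1) ≤
      ((N : ℤ) - n) * (∏ j ∈ T, gp (u j)).coeff n := by
  have h := cf_ratio u T ((n + 1 : ℕ) : ℤ) (by rw [hN]; push_cast; omega)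
  have h1 : ((n + 1 : ℕ) : ℤ) - 1 = (n : ℕ) := by push_cast; ring
  rw [h1, cf_nonneg_nat, cf_nonneg_nat, hN] at h
  have h2 : (N : ℤ) - ((n + 1 : ℕ) : ℤ) + 1 = (N : ℤ) - n := by push_cast; ring
  rw [h2] at h
  push_cast at h
  exact h

theorem coeff_symm (u : κ → ℕ) (T : Finset κ) {i k : ℕ} (hN : ∑ j ∈ T, u j = i + k) :
    (∏ j ∈ T, gp (u j)).coeff i = (∏ j ∈ T, gp (u j)).coeff k := by
  have h := (SU_prod u T).1 (i : ℤ)
  rw [hN] at h
  have h1 : ((i + k : ℕ) : ℤ) - i = k := by push_cast; ring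
  rw [h1, cf_nonneg_nat, cf_nonneg_nat] at h
  exact h.symm

theorem coeff_large (u : κ → ℕ) (T : Finset κ) {n : ℕ} (hN : ∑ j ∈ T, u j < n) :
    (∏ j ∈ T, gp (u j)).coeff n = 0 := by
  have h := (SU_prod u T).1 (n : ℤ)
  rw [cf_nonneg_nat] at h
  rw [← h]
  unfold cf
  rw [if_neg (by omega)]

theorem coeff_nonneg (u : κ → ℕ) (T : Finset κ) (n : ℕ) :
    0 ≤ (∏ j ∈ T, gp (u j)).coeff n := by
  induction T using Finset.induction_on generalizing n with
  | empty =>
    rw [prod_empty, coeff_one]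
    split_ifs <;> norm_num
  | insert j T hj ih =>
    rw [prod_insert hj, mul_comm, ← cf_nonneg_nat, cf_mul_gp]
    refine sum_nonneg fun x _ => ?_
    unfold cf
    split_ifs
    · exact ih _
    · exact le_rfl

theorem coeff_zero' (u : κ → ℕ) (T : Finset κ) : (∏ j ∈ T, gp (u j)).coeff 0 = 1 := by
  induction T using Finset.induction_on with
  | empty => simp
  | insert j T hj ih =>
    rw [prod_insert hj, mul_coeff_zero, ih, mul_one]
    unfold gp
    rw [finsetSum_coeff, sum_range_succ']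
    simp

theorem chain_choose (u : κ → ℕ) (T : Finset κ) {N : ℕ} (hN : ∑ j ∈ T, u j = N) {n₀ n : ℕ}
    (h0 : n₀ ≤ n) (hn : 2 * n ≤ N + 1) :
    (∏ j ∈ T, gp (u j)).coeff n * (N.choose n₀ : ℤ) ≤
      (∏ j ∈ T, gp (u j)).coeff n₀ * (N.choose n : ℤ) := by
  induction n, h0 using Nat.le_induction with
  | base => exact le_rfl
  | succ n h0 ih =>
    have h1 := ih (by omega)
    have h2 := coeff_ratio u T hN (n := n) (by omega)
    have h3 : (N.choose (n + 1) : ℤ) * (n + 1) = N.choose n * ((N : ℤ) - n) := by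
      have h4 := Nat.choose_succ_right_eq N n
      have h5 : ((N - n : ℕ) : ℤ) = N - n := by omega
      rw [← h5]
      exact_mod_cast h4
    have h4 : (0 : ℤ) < n + 1 := by positivity
    have h5 : (0 : ℤ) ≤ N - n := by omega
    refine le_of_mul_le_mul_left ?_ h4
    set P := ∏ j ∈ T, gp (u j)
    calc ((n : ℤ) + 1) * (P.coeff (n + 1) * (N.choose n₀ : ℤ))
        = ((n : ℤ) + 1) * P.coeff (n + 1) * (N.choose n₀ : ℤ) := by ring
      _ ≤ (((N : ℤ) - n) * P.coeff n) * (N.choose n₀ : ℤ) :=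
          mul_le_mul_of_nonneg_right h2 (by positivity)
      _ = ((N : ℤ) - n) * (P.coeff n * (N.choose n₀ : ℤ)) := by ring
      _ ≤ ((N : ℤ) - n) * (P.coeff n₀ * (N.choose n : ℤ)) :=
          mul_le_mul_of_nonneg_left h1 h5
      _ = P.coeff n₀ * (N.choose n * ((N : ℤ) - n)) := by ring
      _ = ((n : ℤ) + 1) * (P.coeff n₀ * (N.choose (n + 1) : ℤ)) := by rw [← h3]; ring

theorem bound_choose (u : κ → ℕ) (T : Finset κ) {i k s : ℕ} (hN : ∑ j ∈ T, u j = i + k)
    (hi : i ≤ s) (hk : k ≤ s) (hs : s ≤ i + k) :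
    (∏ j ∈ T, gp (u j)).coeff i * ((i + k).choose s : ℤ) ≤
      (i + k).choose i * (∏ j ∈ T, gp (u j)).coeff (i + k - s) := by
  have h1 : (i + k).choose s = (i + k).choose (i + k - s) := (Nat.choose_symm hs).symm
  rw [h1, mul_comm (((i + k).choose i : ℕ) : ℤ)]
  rcases le_total i k with h | h
  · exact chain_choose u T hN (by omega) (by omega)
  · rw [coeff_symm u T hN]
    have h2 : (i + k).choose i = (i + k).choose k := by
      rw [← Nat.choose_symm (Nat.le_add_right i k), Nat.add_sub_cancel_left]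
    rw [h2]
    exact chain_choose u T hN (by omega) (by omega)

theorem bound_crude (u : κ → ℕ) (T : Finset κ) {i k : ℕ} (hN : ∑ j ∈ T, u j = i + k) :
    (∏ j ∈ T, gp (u j)).coeff i ≤ (i + k).choose i := by
  rcases le_total i k with h | h
  · have := chain_choose u T hN (Nat.zero_le i) (by omega)
    rw [coeff_zero'] at this
    simpa using this
  · rw [coeff_symm u T hN]
    have h2 : (i + k).choose i = (i + k).choose k := by
      rw [← Nat.choose_symm (Nat.le_add_right i k), Nat.add_sub_cancel_left]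
    rw [h2]
    have := chain_choose u T hN (Nat.zero_le k) (by omega)
    rw [coeff_zero'] at this
    simpa using this

variable {ι : Type} [Fintype ι]

/-- the rank numbers as coefficients -/
theorem card_sv (a : ι → ℕ) (n : ℕ) : (#(sv a n) : ℤ) = (∏ j, gp (a j)).coeff n := by
  unfold gp sv
  rw [prod_univ_sum, finsetSum_coeff, card_filter]
  push_cast
  refine sum_congr rfl fun p _ => ?_
  rw [prod_pow_eq_pow_sum, coeff_X_pow]
  by_cases h : ∑ i, p i = n
  · rw [if_pos h, if_pos h.symm]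
  · rw [if_neg h, if_neg fun h' => h h'.symm]

theorem rk_symm (a : ι → ℕ) {i k : ℕ} (hN : ∑ j, a j = i + k) : #(sv a i) = #(sv a k) := by
  have := coeff_symm a univ hN
  rw [← card_sv, ← card_sv] at this
  exact_mod_cast this

theorem rk_large (a : ι → ℕ) {n : ℕ} (hN : ∑ j, a j < n) : #(sv a n) = 0 := by
  have := coeff_large a univ hN
  rw [← card_sv] at this
  exact_mod_cast this

theorem rk_ratio (a : ι → ℕ) {N n : ℕ} (hN : ∑ j, a j = N) (hn : 2 * n + 1 ≤ N) :
    (n + 1) * #(sv a (n + 1)) ≤ (N - n) * #(sv a n) := by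
  have := coeff_ratio a univ hN hn
  rw [← card_sv, ← card_sv] at this
  have h5 : ((N - n : ℕ) : ℤ) = N - n := by omega
  rw [← h5] at this
  exact_mod_cast this

theorem rk_mono (a : ι → ℕ) {N p q : ℕ} (hN : ∑ j, a j = N) (h1 : p ≤ q) (h2 : p + q ≤ N) :
    #(sv a p) ≤ #(sv a q) := by
  have h := (SU_prod a univ).mono (p := p) (q := q) (by exact_mod_cast h1)
    (by rw [hN]; exact_mod_cast h2)
  rw [cf_nonneg_nat, cf_nonneg_nat, ← card_sv, ← card_sv] at h
  exact_mod_cast h

theorem rk_choose (a : ι → ℕ) {i k s : ℕ} (hN : ∑ j, a j = i + k)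
    (hi : i ≤ s) (hk : k ≤ s) (hs : s ≤ i + k) :
    #(sv a i) * (i + k).choose s ≤ (i + k).choose i * #(sv a (i + k - s)) := by
  have := bound_choose a univ hN hi hk hs
  rw [← card_sv, ← card_sv] at this
  exact_mod_cast this

theorem rk_crude (a : ι → ℕ) {i k : ℕ} (hN : ∑ j, a j = i + k) :
    #(sv a i) ≤ (i + k).choose i := by
  have := bound_crude a univ hN
  rw [← card_sv] at this
  exact_mod_cast this

/-- rank numbers with one more coordinate of size one -/
def rk1 (a : ι → ℕ) (n : ℕ) : ℕ := #(sv a n) + if n = 0 then 0 else #(sv a (n - 1))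

theorem rk1_eq (a : ι → ℕ) (n : ℕ) :
    (rk1 a n : ℤ) = (∏ j : Option ι, gp ((fun o : Option ι => o.elim 1 a) j)).coeff n := by
  rw [Fintype.prod_option]
  show (rk1 a n : ℤ) = (gp 1 * ∏ j, gp (a j)).coeff n
  rw [mul_comm, ← cf_nonneg_nat, cf_mul_gp, sum_range_succ, sum_range_one, rk1]
  push_cast
  rw [sub_zero, cf_nonneg_nat, ← card_sv]
  congr 1
  unfold cf
  rcases n with _ | n
  · simp
  · rw [if_neg (by omega), if_pos (by push_cast; omega), ← card_sv]
    have h1 : (((n + 1 : ℕ) : ℤ) - 1).toNat = n := by push_cast; omega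
    rw [h1]
    simp

theorem rk1_choose (a : ι → ℕ) {i k s : ℕ} (hN : ∑ j, a j + 1 = i + k)
    (hi : i ≤ s) (hk : k ≤ s) (hs : s ≤ i + k) :
    rk1 a i * (i + k).choose s ≤ (i + k).choose i * rk1 a (i + k - s) := by
  have := bound_choose (fun o : Option ι => o.elim 1 a) univ (i := i) (k := k) (by
    rw [Fintype.sum_option]
    show 1 + ∑ j, a j = i + k
    omega) hi hk hs
  rw [← rk1_eq, ← rk1_eq] at this
  exact_mod_cast this

theorem rk1_crude (a : ι → ℕ) {i k : ℕ} (hN : ∑ j, a j + 1 = i + k) :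
    rk1 a i ≤ (i + k).choose i := by
  have := bound_crude (fun o : Option ι => o.elim 1 a) univ (i := i) (k := k) (by
    rw [Fintype.sum_option]
    show 1 + ∑ j, a j = i + k
    omega)
  rw [← rk1_eq] at this
  exact_mod_cast this

end

end Pool.Agent.H23.GF
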