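import Pool.Agent.H23.GF.Nat

/-!
# The second moment of `Y`
-/

set_option autoImplicit false

open Finset Pool.Agent.H23.GW Pool.Agent.H23.GC
open scoped Classical Nat

namespace Pool.Agent.H23.GF

noncomputable section

variable {ι : Type} [Fintype ι] {G : Type} [AddCommGroup G]

theorem short_part {s : ℕ} {ev : (ι → ℤ) →+ G} (h : PC s ev) {c d : ι → ℤ}
    (hc : c ∈ Vn ι (s + 1)) (hd : d ∈ Vn ι s) (hcd : ev d = ev c) :
    ∑ z ∈ Lv ev (2 * s + 1) with Le c z, (dft (z - c) : ℝ) = s - ell d := by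
  obtain ⟨v, ⟨hv1, hv2⟩, hu⟩ := R1 h hc
  have h5 : ({z ∈ Lv ev (2 * s + 1) | Le c z} : Finset _) = {v} := by
    ext z
    rw [mem_filter, mem_singleton]
    exact ⟨fun hz => hu z hz, fun hz => hz ▸ ⟨hv1, hv2⟩⟩
  rw [h5, sum_singleton]
  have h6 : d = c - v := by
    rw [mem_Lv] at hv1
    unfold Le at hv2
    rw [mem_Vn] at hc hd
    exact (h (ev c)).unique ⟨by omega, hcd⟩
      ⟨by rw [nrm_sub_comm]; omega, by rw [map_sub, hv1.2, sub_zero]⟩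
  have h7 : dft (v - c) + ell d = s := by
    rw [mem_Vn] at hd
    rw [← hd, ← dft_add_ell d, h6, ← dft_neg (c - v), neg_sub]
  rw [← h7]
  push_cast
  ring

/-- double sums over the cosets -/
theorem sum_cosets {s : ℕ} {ev : (ι → ℤ) →+ G} (h : PC s ev) (hs : 1 ≤ s)
    (F : (ι → ℤ) → (ι → ℤ) → ℝ) (f : (ι → ℤ) → ℝ)
    (hF : ∀ c ∈ Vn ι (s + 1), ∀ d ∈ Vn ι s, ev d = ev c → F c d = f c) :
    ∑ d ∈ Vn ι s, ∑ c ∈ Vn ι (s + 1) with ev c = ev d, F c d = ∑ c ∈ Vn ι (s + 1), f c := by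
  simp only [sum_filter]
  rw [sum_comm]
  refine sum_congr rfl fun c hc => ?_
  obtain ⟨d, ⟨h1, h2⟩, hu⟩ := exists_deep h hs hc
  rw [sum_eq_single d, if_pos h2.symm, hF c hc d h1 h2]
  · intro w hw hne
    exact if_neg fun h3 => hne (hu w ⟨hw, h3.symm⟩)
  · exact fun h3 => absurd h1 h3

theorem y2 {s : ℕ} {ev : (ι → ℤ) →+ G} (h : PC s ev) (hs : 1 ≤ s) {α : ℤ}
    (hm : ((s : ℤ) + 1) ∣ (2 * Fintype.card ι + α)) (F : (ι → ℕ) → ℝ)
    (H2 : ∀ a : ι → ℕ, ∑ i, a i = 2 * s + 2 →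
      ∑ u ∈ sv a (s + 1), (dN u : ℝ) * dN (fun i => a i - u i) ≤ ∑ p ∈ sv a (s + 2), F p)
    (H1 : ∀ a : ι → ℕ, ∑ i, a i = 2 * s + 1 →
      2 * ∑ u ∈ sv a (s + 1), (dN u : ℝ) * dN (fun i => a i - u i) ≤
        ∑ p ∈ sv a (s + 2), F p + ∑ u ∈ sv a (s + 1), F u) :
    0 ≤ ∑ c ∈ Vn ι (s + 1), (dft c : ℝ) * ((dft c : ℝ) - 2 * s) +
      ∑ u ∈ nv ι (s + 1), 2 ^ lN u * F u + ∑ p ∈ nv ι (s + 2), 2 ^ lN p * F p +
      ∑ d ∈ Vn ι s, (ell d : ℝ) ^ 2 -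
      (2 * α + s + 1) * (∑ c ∈ Vn ι (s + 1), (dft c : ℝ) - ∑ d ∈ Vn ι s, (ell d : ℝ)) +
      α * (α + s + 1) * #(Vn ι s) := by
  have hY : ∀ d ∈ Vn ι s, (Yd s ev d : ℝ) =
      (∑ c ∈ Vn ι (s + 1) with ev c = ev d, (dft c : ℝ)) - ell d := by
    intro d hd
    have := Yd_eq h hs hd
    rw [this]
    push_cast
    rfl
  have k1 : 0 ≤ ∑ d ∈ Vn ι s, ((Yd s ev d : ℝ) - α) * ((Yd s ev d : ℝ) - α - (s + 1)) := by
    refine sum_nonneg fun d _ => ?_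
    have h1 : ((s : ℤ) + 1) ∣ (Yd s ev d - α) := by
      have h2 : Yd s ev d - α = (s + 1) * nb s ev d - (2 * Fintype.card ι + α) := by
        unfold Yd
        ring
      rw [h2]
      exact dvd_sub (dvd_mul_right _ _) hm
    obtain ⟨k, hk⟩ := h1
    have h2 : (0 : ℤ) ≤ (Yd s ev d - α) * (Yd s ev d - α - (s + 1)) := by
      rw [hk]
      have h3 : ((s : ℤ) + 1) * k * ((s + 1) * k - (s + 1)) = (s + 1) ^ 2 * (k * (k - 1)) := by
        ring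
      rw [h3]
      have h4 : 0 ≤ k * (k - 1) := by
        rcases le_or_gt k 0 with h5 | h5
        · exact mul_nonneg_of_nonpos_of_nonpos h5 (by linarith)
        · exact mul_nonneg h5.le (by linarith)
      positivity
    exact_mod_cast h2
  have k2 : ∑ d ∈ Vn ι s, (Yd s ev d : ℝ) =
      ∑ c ∈ Vn ι (s + 1), (dft c : ℝ) - ∑ d ∈ Vn ι s, (ell d : ℝ) := by
    rw [← sum_cosets h hs (fun c _ => (dft c : ℝ)) (fun c => (dft c : ℝ)) (fun _ _ _ _ _ => rfl),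
      ← sum_sub_distrib]
    exact sum_congr rfl hY
  have k3 : ∑ d ∈ Vn ι s, (Yd s ev d : ℝ) ^ 2 =
      ∑ c ∈ Vn ι (s + 1), (dft c : ℝ) * ((dft c : ℝ) - 2 * s) +
      (2 * (∑ z ∈ Lv ev (2 * s + 1), ∑ c ∈ Vn ι (s + 1) with Le c z,
        (dN (ab c) : ℝ) * dft (z - c)) +
      ∑ z ∈ Lv ev (2 * s + 2), ∑ c ∈ Vn ι (s + 1) with Le c z, (dN (ab c) : ℝ) * dft (z - c)) +
      ∑ d ∈ Vn ι s, (ell d : ℝ) ^ 2 := by
    have e1 : ∀ d ∈ Vn ι s, (Yd s ev d : ℝ) ^ 2 =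
        (∑ c ∈ Vn ι (s + 1) with ev c = ev d, (dft c : ℝ) * (Yd s ev d - ell d)) +
        (ell d : ℝ) ^ 2 := by
      intro d hd
      rw [← sum_mul]
      have e2 := hY d hd
      have e3 : ∑ c ∈ Vn ι (s + 1) with ev c = ev d, (dft c : ℝ) = Yd s ev d + ell d := by
        linarith
      rw [e3]
      ring
    rw [sum_congr rfl e1, sum_add_distrib]
    congr 1
    have e4 : ∀ c ∈ Vn ι (s + 1), ∀ d ∈ Vn ι s, ev d = ev c →
        (dft c : ℝ) * (Yd s ev d - ell d) = (dft c : ℝ) * (dft c - 2 * s) +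
        (2 * (∑ z ∈ Lv ev (2 * s + 1), if Le c z then (dN (ab c) : ℝ) * dft (z - c) else 0) +
        ∑ z ∈ Lv ev (2 * s + 2), if Le c z then (dN (ab c) : ℝ) * dft (z - c) else 0) := by
      intro c hc d hd hcd
      have e5 := Yc_eq h hs hc hd hcd
      have e6 := short_part h hc hd hcd
      rw [filter_union, sum_union (disjoint_filter_filter (disj_Lv ev (by omega)))] at e5
      rw [← sum_filter, ← sum_filter, ← mul_sum, ← mul_sum, ← dft_eq]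
      have e7 : ∑ z ∈ Lv ev (2 * s + 2) with Le c z, (dft (z - c) : ℝ) =
          Yd s ev d - dft c + s - (s - ell d) := by
        rw [e5, e6]
        ring
      rw [e7, e6]
      ring
    rw [sum_cosets h hs (fun c d => (dft c : ℝ) * (Yd s ev d - ell d)) _ e4]
    rw [sum_add_distrib, sum_add_distrib, ← mul_sum]
    simp only [sum_filter]
    rw [sum_comm (s := Lv ev (2 * s + 1)), sum_comm (s := Lv ev (2 * s + 2))]
  have k4 := sum_pairs h (fun u => (dN u : ℝ)) F F 2 H2 H1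
  have k5 : ∑ d ∈ Vn ι s, ((Yd s ev d : ℝ) - α) * ((Yd s ev d : ℝ) - α - (s + 1)) =
      ∑ d ∈ Vn ι s, (Yd s ev d : ℝ) ^ 2 - (2 * α + s + 1) * ∑ d ∈ Vn ι s, (Yd s ev d : ℝ) +
      α * (α + s + 1) * #(Vn ι s) := by
    rw [mul_sum, ← sum_sub_distrib, ← nsmul_eq_mul', ← sum_const, ← sum_add_distrib]
    exact sum_congr rfl fun d _ => by ring
  rw [k5, k3, k2] at k1
  linarith

end

end Pool.Agent.H23.GF
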