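import Pool.Agent.H23.GF.Count
import Pool.Agent.H23.GF.Y2

/-!
# The second moment in terms of the sphere sizes
-/

set_option autoImplicit false

open Finset Pool.Agent.H23.GW Pool.Agent.H23.GC
open scoped Classical

namespace Pool.Agent.H23.GF

noncomputable section

variable {ι : Type} [Fintype ι] {G : Type} [AddCommGroup G]

/-- the weight of level `t` -/
def Wt (ι : Type) [Fintype ι] (t : ℕ) : ℝ :=
  (2 * Fintype.card ι - 2) * Pn ι (t + 1) + 2 * Fintype.card ι * Kn ι t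

theorem dN_nv {n : ℕ} {u : ι → ℕ} (hu : u ∈ nv ι n) : (dN u : ℝ) = n - lN u := by
  have h1 := dN_add_lN u
  rw [mem_nv.1 hu] at h1
  have h2 : (dN u : ℝ) + lN u = n := by exact_mod_cast h1
  linarith

theorem sum_dft_sq (s : ℕ) :
    ∑ c ∈ Vn ι (s + 1), (dft c : ℝ) * ((dft c : ℝ) - 2 * s) =
      (1 - (s : ℝ) ^ 2) * Kn ι (s + 1) - Pn ι (s + 1) + Qn ι (s + 1) := by
  have h1 : ∀ c ∈ Vn ι (s + 1), (dft c : ℝ) * ((dft c : ℝ) - 2 * s) =
      (fun u : ι → ℕ => (dN u : ℝ) * ((dN u : ℝ) - 2 * s)) (ab c) := by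
    intro c _
    rw [dft_eq]
  rw [sum_congr rfl h1, sum_Vn (s + 1) (fun u : ι → ℕ => (dN u : ℝ) * ((dN u : ℝ) - 2 * s))]
  unfold Kn Pn Qn
  rw [mul_sum, ← sum_sub_distrib, ← sum_add_distrib]
  refine sum_congr rfl fun u hu => ?_
  show (2 : ℝ) ^ lN u * ((dN u : ℝ) * ((dN u : ℝ) - 2 * s)) = _
  rw [dN_nv hu]
  push_cast
  ring

theorem sum_dft (s : ℕ) :
    ∑ c ∈ Vn ι (s + 1), (dft c : ℝ) = s * Kn ι s := by
  have h1 : ∀ c ∈ Vn ι (s + 1), (dft c : ℝ) = (fun u : ι → ℕ => (dN u : ℝ)) (ab c) := by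
    intro c _
    rw [dft_eq]
  rw [sum_congr rfl h1, sum_Vn (s + 1) (fun u : ι → ℕ => (dN u : ℝ))]
  have h2 := P_K (ι := ι) s
  have h3 : ∑ u ∈ nv ι (s + 1), (2 : ℝ) ^ lN u * (dN u : ℝ) =
      (s + 1) * Kn ι (s + 1) - Pn ι (s + 1) := by
    unfold Kn Pn
    rw [mul_sum, ← sum_sub_distrib]
    refine sum_congr rfl fun u hu => ?_
    rw [dN_nv hu]
    push_cast
    ring
  show ∑ u ∈ nv ι (s + 1), (2 : ℝ) ^ lN u * (dN u : ℝ) = _
  rw [h3, h2]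
  ring

theorem sum_ell_sq (s : ℕ) :
    ∑ d ∈ Vn ι s, (ell d : ℝ) ^ 2 = Qn ι s + Pn ι s := by
  have h1 : ∀ c ∈ Vn ι s, (ell c : ℝ) ^ 2 = (fun u : ι → ℕ => (lN u : ℝ) ^ 2) (ab c) := by
    intro c _
    rw [ell_eq]
  rw [sum_congr rfl h1, sum_Vn s (fun u : ι → ℕ => (lN u : ℝ) ^ 2)]
  unfold Pn Qn
  rw [← sum_add_distrib]
  refine sum_congr rfl fun u _ => ?_
  ring

theorem base_sum (n : ℕ) :
    (1 - ((n + 1 : ℕ) : ℝ) ^ 2) * Kn ι (n + 2) - Pn ι (n + 2) + Qn ι (n + 2) +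
      (Qn ι (n + 1) + Pn ι (n + 1)) =
      -(n * (2 * Fintype.card ι + n) * Kn ι n) := by
  have h1 := Q_rec (ι := ι) (n + 1)
  have h2 := P_rec (ι := ι) (n + 1)
  have h3 := P_K (ι := ι) n
  have h4 := K_rec (ι := ι) n
  rw [show n + 1 + 1 = n + 2 from rfl] at h1 h2
  push_cast
  linear_combination h1 - h2 + 2 * Fintype.card ι * h3 - n * h4

/-- the second moment inequality in terms of sphere sizes, `s = n + 1` -/
theorem y2K {n : ℕ} {ev : (ι → ℤ) →+ G} (h : PC (n + 1) ev) {β : ℤ}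
    (hm : ((n : ℤ) + 2) ∣ (2 * Fintype.card ι - β)) :
    0 ≤ -(n * (2 * Fintype.card ι + n) * Kn ι n) +
      (∑ i ∈ range (n + 1), ∑ k ∈ range (n + 1), cc (n + 1) i k * Wt ι (i + k - (n + 1))) +
      (2 * β - (n + 2)) * n * Kn ι n + β * (β - (n + 2)) * Kn ι (n + 1) := by
  have k1 := y2 h (by omega) (α := -β) (by
    push_cast
    rw [show ((n : ℤ) + 1 + 1) = n + 2 by ring]
    exact hm) (FF (n + 1)) (fun a ha => FF_H2 a ha) (fun a ha => FF_H1 a ha)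
  have k2 := total_FF (ι := ι) (s := n + 1) (by omega)
  rw [sum_dft_sq, sum_dft, sum_ell_sq, ← Pn_ell, ← Kn_card] at k1
  have k3 := base_sum (ι := ι) n
  have k4 := P_K (ι := ι) n
  have k5 : ∑ i ∈ range (n + 1), ∑ k ∈ range (n + 1), cc (n + 1) i k * Wt ι (i + k - (n + 1)) =
      ∑ i ∈ range (n + 1), ∑ k ∈ range (n + 1), cc (n + 1) i k *
        ((2 * Fintype.card ι - 2) * Pn ι (i + k - (n + 1) + 1) +
          2 * Fintype.card ι * Kn ι (i + k - (n + 1))) := rfl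
  rw [k5, ← k2]
  rw [show n + 1 + 1 = n + 2 from rfl] at k1 ⊢
  push_cast at k1 k3 k4 ⊢
  rw [k4] at k1
  linear_combination k1 + k3 - k4

end

end Pool.Agent.H23.GF
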